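import Mathlib

/-! Generalised central trinomial coefficients. -/

namespace Pool.Agent.H13.TR

open Finset Polynomial

/-- `T_m(b,c)`: the coefficient of `x^m` in `(x^2+bx+c)^m`. -/
noncomputable def T (m : ℕ) (b c : ℤ) : ℤ := ((X ^ 2 + C b * X + C c : ℤ[X]) ^ m).coeff m

lemma T_expand (m : ℕ) (d e : ℤ) :
    T m (d + 2 * e) (e ^ 2) = ∑ k ∈ range (m + 1), (m.choose k : ℤ) * d ^ (m - k) * (k.centralBinom : ℤ) * e ^ k := by
  have h1 : (X ^ 2 + C (d + 2 * e) * X + C (e ^ 2) : ℤ[X]) = (X + C e) ^ 2 + C d * X := by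
    simp only [map_add, map_mul, map_pow, map_ofNat]
    ring
  rw [T, h1, add_pow, finsetSum_coeff]
  refine sum_congr rfl ?_
  intro k hk
  rw [mem_range] at hk
  have h2 : ((X + C e) ^ 2 : ℤ[X]) ^ k * (C d * X) ^ (m - k) * ((m.choose k : ℕ) : ℤ[X])
      = C ((m.choose k : ℤ) * d ^ (m - k)) * ((X + C e) ^ (2 * k) * X ^ (m - k)) := by
    rw [← pow_mul, mul_pow]
    simp only [map_mul, map_pow, map_natCast]
    ring
  rw [h2, coeff_C_mul, coeff_mul_X_pow', if_pos (by omega), coeff_X_add_C_pow,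
    show 2 * k - (m - (m - k)) = k by omega, show m - (m - k) = k by omega, Nat.centralBinom]
  ring

lemma T_zero_one (j : ℕ) : T (2 * j) 0 1 = (j.centralBinom : ℤ) := by
  rw [T]
  have h1 : (X ^ 2 + C (0 : ℤ) * X + C 1 : ℤ[X]) ^ (2 * j) = expand ℤ 2 ((X + C 1) ^ (2 * j)) := by
    simp
  rw [h1, mul_comm 2 j, coeff_expand_mul (by norm_num), coeff_X_add_C_pow]
  simp [Nat.centralBinom, mul_comm]

end Pool.Agent.H13.TR
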