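import Pool.Agent.H13.TR.SumS
import Pool.Agent.H13.TR.Tri

/-! Evaluation of `S`. -/

namespace Pool.Agent.H13.TR

open Finset

variable {p n : ℕ} {A : Type*} [CommRing A] {c : ℕ → A}

/-- `τ_m(w) = ∑_k binom(m,k) binom(2k,k) w^k` -/
def tau (w : A) (m : ℕ) : A := ∑ k ∈ range (m + 1), (m.choose k : A) * (k.centralBinom : A) * w ^ k

lemma tau_eq (w : A) {m M : ℕ} (h : m < M) :
    tau w m = ∑ k ∈ range M, (m.choose k : A) * (k.centralBinom : A) * w ^ k := by
  rw [tau]
  refine sum_subset (range_subset_range.mpr (by omega)) ?_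
  intro k _ hk
  rw [mem_range, not_lt] at hk
  rw [Nat.choose_eq_zero_of_lt (by omega)]
  simp

/-- coefficient of `u^k` in `S` -/
def sg (h : A) (n k : ℕ) : A := (k.centralBinom : A) * (-h) ^ k * GG h n k

lemma sum_tau (h u : A) (n : ℕ) :
    ∑ j ∈ range (n + 1), aa h j * tau (-h * u) (2 * j) = ∑ k ∈ range (2 * n + 1), sg h n k * u ^ k := by
  have h1 : ∀ j ∈ range (n + 1), aa h j * tau (-h * u) (2 * j) = ∑ k ∈ range (2 * n + 1),
      aa h j * (((2 * j).choose k : A) * (k.centralBinom : A) * (-h * u) ^ k) := by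
    intro j hj
    rw [mem_range] at hj
    rw [tau_eq _ (show 2 * j < 2 * n + 1 by omega), mul_sum]
  rw [sum_congr rfl h1, sum_comm]
  refine sum_congr rfl ?_
  intro k _
  rw [sg, GG, mul_sum, sum_mul]
  refine sum_congr rfl ?_
  intro j _
  rw [mul_pow]
  ring

lemma sg_rec (H : Good p n A c) {k : ℕ} (h1 : k + 1 < p) :
    (2 * k + 3) * sg (c 2) n (k + 1) = (2 * k + 1) * sg (c 2) n k := by
  have e1 := GG_succ H.two n k
  have e2 : ((2 * (n : A) + 1)) = p := by rw [H.hn]; push_cast; ring
  rw [e2] at e1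
  rw [show 2 * n + 1 = p from H.hn.symm] at e1
  have e3 := H.p_choose (k := k + 1) (by omega) h1
  have e4 : (((k + 1) * (k + 1).centralBinom : ℕ) : A) = ((2 * (2 * k + 1) * k.centralBinom : ℕ) : A) := by
    rw [Nat.succ_mul_centralBinom_succ]
  push_cast at e4
  apply H.cancel (k := k + 1) (by omega) h1
  unfold sg
  push_cast
  have e5 := H.two
  rw [pow_succ]
  have e6 : (2 * (k : A) + 3) * GG (c 2) n (k + 1) + (k + 1) * GG (c 2) n k = 0 := by
    rw [e1]
    linear_combination aa (c 2) n * e3
  linear_combination ((2 * k + 3) * (-c 2) ^ k * (-c 2) * GG (c 2) n (k + 1)) * e4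
    + (-(2 * k + 1) * (k.centralBinom : A) * (-c 2) ^ k * GG (c 2) n (k + 1) * (2 * k + 3)) * e5
    - ((2 * k + 1) * (k.centralBinom : A) * (-c 2) ^ k) * e6

lemma p_cb (H : Good p n A c) : (p : A) * (n.centralBinom : A) = (-1) ^ n * p := by
  rw [Nat.centralBinom, show 2 * n = p - 1 by have := H.hn; omega]
  exact H.p_choose_pred (by have := H.hn; have := H.h3; omega)

lemma p_aa (H : Good p n A c) : (p : A) * aa (c 2) n = (-1) ^ n * p := by
  rw [aa, show 2 * n = p - 1 by have := H.hn; omega]
  linear_combination (c 2) ^ (p - 1) * p_cb H + (-1) ^ n * H.p_half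

lemma sg_all (H : Good p n A c) {k : ℕ} (h1 : k < p) :
    (2 * k + 1) * sg (c 2) n k = (-1) ^ n * p := by
  induction k with
  | zero =>
    have e2 : ((2 * (n : A) + 1)) = p := by rw [H.hn]; push_cast; ring
    rw [sg, GG_zero H.two, e2, p_aa H]
    simp
  | succ k ih =>
    have := ih (by omega)
    have h2 := sg_rec H h1
    push_cast
    linear_combination h2 + this

/-- general principle: a sequence with `(2k+1) x_k = (-1)^k e p` for `k < p` -/
lemma pair_lt (H : Good p n A c) {x : A} {e : A} {k : ℕ} (hk : k < n)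
    (hx : (2 * k + 1) * x = e * p) : x = e * (p.choose (2 * k + 1) : A) := by
  have hn := H.hn
  apply H.cancel (k := 2 * k + 1) (by omega) (by omega)
  push_cast
  rw [hx]
  have h1 : (((p - 1 + 1) * (p - 1).choose (2 * k) : ℕ) : A) = (((p - 1 + 1).choose (2 * k + 1) * (2 * k + 1) : ℕ) : A) := by
    rw [Nat.add_one_mul_choose_eq]
  rw [show p - 1 + 1 = p by omega] at h1
  push_cast at h1
  rw [H.p_choose_pred (by omega)] at h1
  rw [pow_mul, neg_one_sq, one_pow, one_mul] at h1
  linear_combination e * h1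

lemma pair_gt (H : Good p n A c) {x : A} {e : A} {k : ℕ} (hk : k < n)
    (hx : (2 * (2 * n - k : ℕ) + 1) * x = e * p) : x = - (e * (p.choose (2 * k + 1) : A)) := by
  have hn := H.hn
  rw [Nat.cast_sub (by omega)] at hx
  have e2 : ((2 * (n : A) + 1)) = p := by rw [H.hn]; push_cast; ring
  push_cast at hx
  have e3 : (2 * (p : A) - (2 * k + 1)) * x = e * p := by
    rw [← e2] at hx ⊢
    linear_combination hx
  have e4 : (p : A) * x = 0 := by
    apply H.cancel (k := 2 * k + 1) (by omega) (by omega)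
    push_cast
    linear_combination (-(p : A)) * e3 + (2 * x - e) * H.sq
  have e5 : (2 * k + 1) * (-x) = e * p := by
    linear_combination e3 - 2 * e4
  have := pair_lt H hk e5
  linear_combination -this

/-- Sums `∑_{k<p} x_k u^k` with `(2k+1) x_k = e (-1)^(rk) p`, in terms of the middle coefficient. -/
lemma sum_formula (H : Good p n A c) (x : ℕ → A) (e t : A)
    (hx : ∀ k, k < p → (2 * k + 1) * x k = e * t ^ k * p) (u : A) :
    ∑ k ∈ range (2 * n + 1), x k * u ^ k = x n * u ^ n
      + e * ∑ k ∈ range n, (p.choose (2 * k + 1) : A) * ((t * u) ^ k - (t * u) ^ (2 * n - k)) := by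
  have hn := H.hn
  rw [show 2 * n + 1 = n + 1 + n by ring, sum_range_add, sum_range_succ]
  have h1 : ∑ i ∈ range n, x (n + 1 + i) * u ^ (n + 1 + i) = ∑ k ∈ range n, x (2 * n - k) * u ^ (2 * n - k) := by
    rw [← sum_range_reflect]
    refine sum_congr rfl ?_
    intro i hi
    rw [mem_range] at hi
    rw [show n + 1 + (n - 1 - i) = 2 * n - i by omega]
  rw [h1]
  have h2 : ∑ k ∈ range n, x k * u ^ k = ∑ k ∈ range n, e * (p.choose (2 * k + 1) : A) * (t * u) ^ k := by
    refine sum_congr rfl ?_
    intro k hk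
    rw [mem_range] at hk
    rw [pair_lt H hk (hx k (by omega)), mul_pow]
    ring
  have h3 : ∑ k ∈ range n, x (2 * n - k) * u ^ (2 * n - k)
      = ∑ k ∈ range n, - (e * (p.choose (2 * k + 1) : A) * (t * u) ^ (2 * n - k)) := by
    refine sum_congr rfl ?_
    intro k hk
    rw [mem_range] at hk
    rw [pair_gt H hk (hx (2 * n - k) (by omega)), mul_pow]
    ring
  rw [h2, h3, sum_neg_distrib, mul_sum]
  simp only [mul_sub, sum_sub_distrib, mul_assoc]
  ring

/-- at `t u = ±1` only the middle coefficient survives -/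
lemma sum_formula_one (H : Good p n A c) (x : ℕ → A) (e t : A)
    (hx : ∀ k, k < p → (2 * k + 1) * x k = e * t ^ k * p) (u : A) (hu : (t * u) ^ 2 = 1) :
    ∑ k ∈ range (2 * n + 1), x k * u ^ k = x n * u ^ n := by
  rw [sum_formula H x e t hx u]
  have : ∑ k ∈ range n, (p.choose (2 * k + 1) : A) * ((t * u) ^ k - (t * u) ^ (2 * n - k)) = 0 := by
    refine sum_eq_zero ?_
    intro k hk
    rw [mem_range] at hk
    have e1 : (t * u) ^ (2 * n - k) = (t * u) ^ k := by
      have e2 : (t * u) ^ (2 * n - k) * ((t * u) ^ 2) ^ k = (t * u) ^ k * ((t * u) ^ 2) ^ n := by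
        rw [← pow_mul, ← pow_mul, ← pow_add, ← pow_add]
        congr 1
        omega
      simpa [hu] using e2
    rw [e1, sub_self, mul_zero]
  rw [this, mul_zero, add_zero]

/-- `∑_{j ≤ n} a_j^2 = (-1)^n`. -/
lemma sum_sq (H : Good p n A c) : ∑ j ∈ range (n + 1), aa (c 2) j ^ 2 = (-1) ^ n := by
  have h1 : ∀ j, j ≤ n → aa (c 2) j ^ 2 = (-1) ^ j * (n.choose j : A) * ((n + j).choose n : A) := by
    intro j
    induction j with
    | zero => intro _; simp [aa]
    | succ j ih =>
      intro hj
      have hn := H.hn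
      have ih := ih (by omega)
      have e1 := aa_succ H.two j
      have e2 : ((((j + 1) : ℕ) : A) * (n.choose (j + 1) : A)) = (n - j) * (n.choose j : A) := by
        have h3 : ((n.choose (j + 1) * (j + 1) : ℕ) : A) = ((n.choose j * (n - j) : ℕ) : A) := by
          rw [Nat.choose_succ_right_eq]
        push_cast [Nat.cast_sub (show j ≤ n by omega)] at h3
        push_cast
        linear_combination h3
      have e3 : ((((j + 1) : ℕ) : A) * ((n + (j + 1)).choose n : A)) = (n + j + 1) * ((n + j).choose n : A) := by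
        have h4 := Nat.choose_mul_succ_eq (n + j) n
        have h5 : ((((n + j).choose n * (n + j + 1) : ℕ)) : A) = (((n + j + 1).choose n * (n + j + 1 - n) : ℕ) : A) := by
          rw [h4]
        rw [show n + j + 1 - n = j + 1 by omega] at h5
        push_cast at h5
        rw [show n + (j + 1) = n + j + 1 by ring]
        push_cast
        linear_combination -h5
      have e4 : (4 : A) * ((n - j) * (n + j + 1)) = - (2 * j + 1) ^ 2 := by
        have e5 : ((2 * (n : A) + 1)) = p := by rw [H.hn]; push_cast; ring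
        have e6 := H.sq
        rw [← e5] at e6
        linear_combination e6
      apply H.cancel (k := 2) (by omega) (by have := H.h3; omega)
      apply H.cancel (k := 2) (by omega) (by have := H.h3; omega)
      apply H.cancel (k := j + 1) (by omega) (by omega)
      apply H.cancel (k := j + 1) (by omega) (by omega)
      push_cast at e1 e2 e3 ⊢
      have e7 : (2 * ((j : A) + 1) * aa (c 2) (j + 1)) ^ 2 = ((2 * j + 1) * aa (c 2) j) ^ 2 := by rw [e1]
      rw [mul_pow _ (aa (c 2) j), ih] at e7
      rw [pow_succ (-1 : A) j]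
      linear_combination e7 + (4 * (-1) ^ j * (j + 1) * ((n + (j + 1)).choose n : A)) * e2
        + (4 * (-1) ^ j * ((n : A) - j) * (n.choose j : A)) * e3
        + ((-1) ^ j * (n.choose j : A) * ((n + j).choose n : A)) * e4
  have h2 : ∑ j ∈ range (n + 1), (-1 : ℤ) ^ j * (n.choose j : ℤ) * ((n + j).choose n : ℤ) = (-1) ^ n := by
    have h3 := Polynomial.shiftedLegendre_eval_symm n (1 : ℤ)
    simp only [Polynomial.shiftedLegendre, map_sum, map_mul, Polynomial.aeval_C, map_pow, Polynomial.aeval_X] at h3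
    rw [sub_self] at h3
    simp only [one_pow, mul_one] at h3
    rw [sum_range_succ'] at h3
    simpa [sum_range_succ'] using h3
  rw [sum_congr rfl (fun j hj => h1 j (by rw [mem_range] at hj; omega))]
  have h4 := congrArg (fun x : ℤ => (x : A)) h2
  push_cast at h4
  exact h4

end Pool.Agent.H13.TR
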