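import Pool.Agent.H13.TR.Val1c

/-! Values of the five sums in a good ring, and the passage from `ZMod (p^2)` to `ℚ`. -/

namespace Pool.Agent.H13.TR

open Finset

section Values

variable {p n : ℕ} {A : Type*} [CommRing A] {c : ℕ → A}

lemma aa_tau (m j : ℕ) (d e : ℤ) (g h : A) (hg : (d : A) * g = 1) (b cc' : ℤ) (hb : b = d + 2 * e)
    (hc : cc' = e ^ 2) :
    ((T m b cc' * ((2 * j).choose j : ℤ) : ℤ) : A) * (g ^ m * h ^ (2 * j)) = aa h j * tau (e * g) m := by
  have h1 := cast_T m d e g hg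
  rw [← hb, ← hc] at h1
  rw [aa, ← h1, Nat.centralBinom]
  push_cast
  ring

theorem val1 (H : Good p n A c) : (4 : A) * ∑ j ∈ range p, ((T j 1 1 * ((2 * j).choose j : ℤ) : ℤ) : A)
    * (c 2 ^ 2 * c 3) ^ j = ((chi3 p * (3 + 3 ^ (p - 1)) : ℤ) : A) := by
  have h1 : ∀ j ∈ range p, ((T j 1 1 * ((2 * j).choose j : ℤ) : ℤ) : A) * (c 2 ^ 2 * c 3) ^ j
      = aa (c 2) j * tau (-c 3) j := by
    intro j _
    have := aa_tau (A := A) j j 3 (-1) (c 3) (c 2) (by push_cast; exact H.three) 1 1 (by norm_num) (by norm_num)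
    rw [show (((-1 : ℤ) : A) * c 3) = -c 3 by push_cast; ring] at this
    rw [← this, mul_pow, ← pow_mul]
    ring
  rw [sum_congr rfl h1]
  have hn := H.hn
  have h3 := H.h3
  have h2 := first_sum_aux H
  have hp3 : ¬ 3 ∣ p := by
    intro h
    have := (Nat.prime_dvd_prime_iff_eq Nat.prime_three H.prime).mp h
    omega
  obtain ⟨z, hz⟩ := Good.of_dvd (A := A) (neg_three_pow H)
  have hc := congrArg (fun x : ℤ => (x : A)) (chi3_sq hp3)
  push_cast at hz hc ⊢
  have hsq := H.sq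
  have e1 : (3 : A) ^ (p - 1) = ((-3) ^ n) ^ 2 := by
    rw [← pow_mul, mul_comm n 2, pow_mul, show p - 1 = 2 * n by omega, pow_mul]
    norm_num
  have e2 : (3 : A) ^ p = 3 * 3 ^ (p - 1) := by rw [← pow_succ']; congr 1; omega
  rw [e2, e1] at h2
  rw [e1]
  set S := ∑ j ∈ range p, aa (c 2) j * tau (-c 3) j
  set w := (-3 : A) ^ n
  set x := ((chi3 p : ℤ) : A)
  have hw : w = x + p * z := by linear_combination hz
  rw [hw] at h2 ⊢
  linear_combination (x - p * z) * h2 + (4 * S * z ^ 2 - 4 * x * z ^ 2 - 3 * p * z ^ 3) * hsq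
    + (-4 * S + 2 * x + p * z) * hc

lemma leg_neg_one [Fact p.Prime] (H : Good p n A c) : legendreSym p (-1) = (-1) ^ n := by
  have hn := H.hn
  have h3 := H.h3
  rw [legendreSym.at_neg_one (by omega), ZMod.χ₄_eq_neg_one_pow (by omega)]
  congr 1
  omega

lemma leg_three_p {p : ℕ} : legendreSym 3 p = chi3 p := by
  rw [legendreSym.mod, chi3]
  have h : (p : ℤ) % 3 = ((p % 3 : ℕ) : ℤ) := by push_cast; rfl
  rw [show ((3 : ℕ) : ℤ) = 3 by rfl, h]
  rcases (by omega : p % 3 = 0 ∨ p % 3 = 1 ∨ p % 3 = 2) with h | h | h <;> rw [h] <;> decide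

lemma leg_three [Fact p.Prime] (H : Good p n A c) : legendreSym p 3 = (-1) ^ n * chi3 p := by
  have hn := H.hn
  have h3 := H.h3
  have := legendreSym.quadratic_reciprocity' (p := 3) (q := p) (by norm_num) (by omega)
  rw [leg_three_p] at this
  push_cast at this
  rw [this]
  congr 2
  omega

theorem val2 (H : Good p n A c) : ∑ j ∈ range (n + 1), ((T (2 * j) 4 1 * ((2 * j).choose j : ℤ) : ℤ) : A)
    * (c 2 ^ 4) ^ j = 1 := by
  have h1 : ∀ j ∈ range (n + 1), ((T (2 * j) 4 1 * ((2 * j).choose j : ℤ) : ℤ) : A) * (c 2 ^ 4) ^ j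
      = aa (c 2) j * tau (-c 2 * (-1)) (2 * j) := by
    intro j _
    have := aa_tau (A := A) (2 * j) j 2 1 (c 2) (c 2) (by push_cast; exact H.two) 4 1 (by norm_num) (by norm_num)
    rw [show (((1 : ℤ) : A) * c 2) = -c 2 * (-1) by push_cast; ring] at this
    rw [← this, ← pow_mul, ← pow_add]
    congr 2
    ring
  rw [sum_congr rfl h1, S_formula H, FF_neg_one, ← pow_add, ← two_mul, pow_mul]
  simp

theorem val3 (H : Good p n A c) : 3 * ∑ j ∈ range (n + 1), ((T (2 * j) 4 1 * (catalan j : ℤ) : ℤ) : A)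
    * (c 2 ^ 4) ^ j = 4 * ((((-1) ^ n * chi3 p - (-1) ^ n * p : ℤ)) : A) := by
  have h1 : ∀ j ∈ range (n + 1), ((T (2 * j) 4 1 * (catalan j : ℤ) : ℤ) : A) * (c 2 ^ 4) ^ j
      = kk (c 2) j * tau (c 2) (2 * j) := by
    intro j _
    have := cast_T (A := A) (2 * j) 2 1 (c 2) (by push_cast; exact H.two)
    rw [show (((1 : ℤ) : A) * c 2) = c 2 by push_cast; ring,
      show (2 : ℤ) + 2 * 1 = 4 by norm_num, show (1 : ℤ) ^ 2 = 1 by norm_num] at this
    rw [← this, kk, ← pow_mul]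
    push_cast
    rw [show 4 * j = 2 * j + 2 * j by ring, pow_add]
    ring
  rw [sum_congr rfl h1, cat_sum H]
  push_cast
  ring

theorem val4 (H : Good p n A c) : (4 : A) * ∑ j ∈ range (n + 1), ((T (2 * j) 3 4 * ((2 * j).choose j : ℤ) : ℤ) : A)
    * (c 2 ^ 2) ^ j = (((-1) ^ n * (7 - 3 ^ p) : ℤ) : A) := by
  have h1 : ∀ j ∈ range (n + 1), ((T (2 * j) 3 4 * ((2 * j).choose j : ℤ) : ℤ) : A) * (c 2 ^ 2) ^ j
      = aa (c 2) j * tau (-c 2 * 4) (2 * j) := by
    intro j _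
    have := aa_tau (A := A) (2 * j) j (-1) 2 (-1) (c 2) (by push_cast; ring) 3 4 (by norm_num) (by norm_num)
    rw [show (((2 : ℤ) : A) * (-1)) = -c 2 * 4 by push_cast; linear_combination (2 : A) * H.two] at this
    rw [← this, ← pow_mul, pow_mul (-1 : A)]
    simp
  rw [sum_congr rfl h1, S_formula H]
  have := four_FF_four H
  push_cast
  linear_combination (-1) ^ n * this

theorem val5 (H : Good p n A c) : ∑ j ∈ range (n + 1), ((T (2 * j) 8 9 * ((2 * j).choose j : ℤ) : ℤ) : A)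
    * (c 2 ^ 4) ^ j = (((-1) ^ n * chi3 p : ℤ) : A) := by
  have h1 : ∀ j ∈ range (n + 1), ((T (2 * j) 8 9 * ((2 * j).choose j : ℤ) : ℤ) : A) * (c 2 ^ 4) ^ j
      = aa (c 2) j * tau (-c 2 * (-3)) (2 * j) := by
    intro j _
    have := aa_tau (A := A) (2 * j) j 2 3 (c 2) (c 2) (by push_cast; exact H.two) 8 9 (by norm_num) (by norm_num)
    rw [show (((3 : ℤ) : A) * c 2) = -c 2 * (-3) by push_cast; ring] at this
    rw [← this, ← pow_mul, ← pow_add]
    congr 2
    ring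
  rw [sum_congr rfl h1, S_formula H, FF_neg_three H]
  push_cast
  ring

end Values

section Rational

/-- sums with denominators `q^j` -/
lemma sum_clear {A : Type*} [CommRing A] (f : ℕ → ℤ) (q N : ℕ) (g : A) (hg : (q : A) * g = 1) :
    ((∑ j ∈ range N, f j * (q : ℤ) ^ (N - 1 - j) : ℤ) : A) = (q : A) ^ (N - 1) * ∑ j ∈ range N, (f j : A) * g ^ j := by
  push_cast
  rw [mul_sum]
  refine sum_congr rfl ?_
  intro j hj
  rw [mem_range] at hj
  have h1 : (q : A) ^ (N - 1) * g ^ j = (q : A) ^ (N - 1 - j) := by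
    have : (q : A) ^ (N - 1) = (q : A) ^ (N - 1 - j) * (q : A) ^ j := by rw [← pow_add]; congr 1; omega
    rw [this, mul_assoc, ← mul_pow, hg, one_pow, mul_one]
  linear_combination (-(f j : A)) * h1

/-- the good ring `ZMod (p^2)` -/
lemma good_zmod {p : ℕ} (hp : p.Prime) (h3 : 3 < p) :
    Good p ((p - 1) / 2) (ZMod (p ^ 2)) (fun k => ((k : ZMod (p ^ 2)))⁻¹) where
  prime := hp
  hn := by
    have := hp.eq_two_or_odd
    omega
  h3 := h3
  sq := by
    have := ZMod.natCast_self (p ^ 2)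
    push_cast at this
    exact this
  hc := by
    intro k h0 h1
    apply ZMod.coe_mul_inv_eq_one
    exact Nat.Coprime.pow_right 2 (Nat.coprime_of_lt_prime h0.ne' h1 hp).symm

end Rational

end Pool.Agent.H13.TR
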