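import Mathlib

/-! Facts in a ring where p^2 = 0 and the integers 1, ..., p-1 are invertible. -/

namespace Pool.Agent.H13.TR

open Finset

/-- `A` is a commutative ring in which `p ^ 2 = 0`, and `c k` is the inverse of `k` for
`0 < k < p`; here `p = 2 n + 1 > 3` is prime. -/
structure Good (p n : ℕ) (A : Type*) [CommRing A] (c : ℕ → A) : Prop where
  prime : p.Prime
  hn : p = 2 * n + 1
  h3 : 3 < p
  sq : (p : A) ^ 2 = 0
  hc : ∀ k, 0 < k → k < p → (k : A) * c k = 1

variable {p n : ℕ} {A : Type*} [CommRing A] {c : ℕ → A}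

namespace Good

lemma cancel (H : Good p n A c) {k : ℕ} (h0 : 0 < k) (h1 : k < p) {x y : A}
    (h : (k : A) * x = k * y) : x = y := by
  have := H.hc k h0 h1
  calc x = (k * c k) * x := by rw [this, one_mul]
    _ = c k * (k * x) := by ring
    _ = c k * (k * y) := by rw [h]
    _ = (k * c k) * y := by ring
    _ = y := by rw [this, one_mul]

lemma two (H : Good p n A c) : (2 : A) * c 2 = 1 := by
  have h3 := H.h3
  simpa using H.hc 2 (by omega) (by omega)

lemma three (H : Good p n A c) : (3 : A) * c 3 = 1 := by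
  have h3 := H.h3
  simpa using H.hc 3 (by omega) (by omega)

/-- if `p` divides the integer `x` then `p` divides it in `A` -/
lemma of_dvd {x : ℤ} (h : (p : ℤ) ∣ x) : ∃ y : A, (x : A) = p * y := by
  obtain ⟨z, hz⟩ := h
  exact ⟨z, by rw [hz]; push_cast; ring⟩

lemma mul_of_dvd (H : Good p n A c) {x : ℤ} (h : (p : ℤ) ∣ x) : (p : A) * x = 0 := by
  obtain ⟨y, hy⟩ := of_dvd (A := A) h
  rw [hy]
  linear_combination y * H.sq

/-- `p * (p choose k) = 0` for `0 < k < p`. -/
lemma p_choose (H : Good p n A c) {k : ℕ} (h0 : 0 < k) (h1 : k < p) : (p : A) * (p.choose k : A) = 0 := by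
  have h := H.mul_of_dvd (x := (p.choose k : ℤ))
    (Int.natCast_dvd_natCast.mpr (H.prime.dvd_choose_self h0.ne' h1))
  simpa using h

/-- `p * (p-1 choose k) = (-1)^k p`. -/
lemma p_choose_pred (H : Good p n A c) {k : ℕ} (h1 : k < p) :
    (p : A) * ((p - 1).choose k : A) = (-1) ^ k * p := by
  induction k with
  | zero => simp
  | succ k ih =>
    have h := Nat.choose_succ_succ (p - 1) k
    have hp : p - 1 + 1 = p := by omega
    rw [Nat.succ_eq_add_one, hp] at h
    have h2 : (p : A) * ((p.choose (k + 1) : ℕ) : A)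
        = (p : A) * (((p - 1).choose k + (p - 1).choose (k + 1) : ℕ) : A) := by rw [h]
    rw [H.p_choose (by omega) h1] at h2
    push_cast at h2
    rw [mul_add, ih (by omega)] at h2
    rw [pow_succ]
    linear_combination -h2

/-- Fermat -/
lemma fermat (H : Good p n A c) {k : ℕ} (h0 : 0 < k) (h1 : k < p) :
    ∃ y : A, (k : A) ^ (p - 1) = 1 + p * y := by
  have h : ((k : ℤ) ^ (p - 1) ≡ 1 [ZMOD p]) := by
    apply Int.ModEq.pow_card_sub_one_eq_one H.prime
    rw [Int.isCoprime_iff_gcd_eq_one, Int.gcd_natCast_natCast]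
    exact (Nat.coprime_of_lt_prime (by omega) h1 H.prime).symm
  obtain ⟨y, hy⟩ := of_dvd (A := A) (h.symm.dvd)
  refine ⟨y, ?_⟩
  push_cast at hy
  linear_combination hy

lemma p_fermat (H : Good p n A c) {k : ℕ} (h0 : 0 < k) (h1 : k < p) :
    (p : A) * (k : A) ^ (p - 1) = p := by
  obtain ⟨y, hy⟩ := H.fermat h0 h1
  rw [hy]
  linear_combination y * H.sq

lemma p_two (H : Good p n A c) : (p : A) * 2 ^ (p - 1) = p := by
  have h3 := H.h3
  simpa using H.p_fermat (k := 2) (by omega) (by omega)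

/-- the inverse of two, to the power `2n = p - 1` -/
lemma p_half (H : Good p n A c) : (p : A) * c 2 ^ (p - 1) = p := by
  have h := H.p_two
  have h2 : (2 : A) ^ (p - 1) * c 2 ^ (p - 1) = 1 := by
    rw [← mul_pow, H.two, one_pow]
  linear_combination (-c 2 ^ (p - 1)) * h + p * h2

lemma four_pow (H : Good p n A c) : (4 : A) ^ n = 2 ^ (p - 1) := by
  rw [show p - 1 = 2 * n by have := H.hn; omega, pow_mul]
  norm_num

end Good

end Pool.Agent.H13.TR
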