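import Pool.Agent.H13.TR.Ring

/-! The sum `S(w) = ∑_{j ≤ n} a_j τ_{2j}(w)`. -/

namespace Pool.Agent.H13.TR

open Finset

variable {p n : ℕ} {A : Type*} [CommRing A] {c : ℕ → A}

/-- `a_j = binom(2j,j) h^{2j}` with `h` the inverse of two. -/
def aa (h : A) (j : ℕ) : A := (j.centralBinom : A) * h ^ (2 * j)

/-- `a_j/(j+1)` -/
def kk (h : A) (j : ℕ) : A := (catalan j : A) * h ^ (2 * j)

lemma aa_zero (h : A) : aa h 0 = 1 := by simp [aa]

lemma aa_succ {h : A} (hh : 2 * h = 1) (j : ℕ) :
    2 * ((j : A) + 1) * aa h (j + 1) = (2 * j + 1) * aa h j := by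
  have h1 : (((j + 1) * (j + 1).centralBinom : ℕ) : A) = ((2 * (2 * j + 1) * j.centralBinom : ℕ) : A) := by
    rw [Nat.succ_mul_centralBinom_succ]
  push_cast at h1
  unfold aa
  rw [show 2 * (j + 1) = 2 * j + 2 by ring, pow_add]
  linear_combination (2 * h ^ (2 * j) * h ^ 2) * h1
    + ((2 * j + 1) * (j.centralBinom : A) * h ^ (2 * j) * (2 * h + 1)) * hh

lemma aa_eq_kk (h : A) (j : ℕ) : aa h j = (j + 1) * kk h j := by
  have h1 : (((j + 1) * catalan j : ℕ) : A) = (j.centralBinom : A) := by
    rw [succ_mul_catalan_eq_centralBinom]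
  push_cast at h1
  unfold aa kk
  rw [← h1]
  ring

/-- `G_k` up to `J`. -/
def GG (h : A) (J k : ℕ) : A := ∑ j ∈ range (J + 1), aa h j * ((2 * j).choose k : A)

lemma GG_zero {h : A} (hh : 2 * h = 1) (J : ℕ) : GG h J 0 = (2 * J + 1) * aa h J := by
  induction J with
  | zero => simp [GG, aa]
  | succ J ih =>
    rw [GG, sum_range_succ]
    rw [GG] at ih
    rw [ih]
    have := aa_succ hh J
    simp only [Nat.choose_zero_right, Nat.cast_one, mul_one]
    push_cast
    linear_combination -this

lemma GG_succ {h : A} (hh : 2 * h = 1) (J k : ℕ) :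
    (2 * k + 3) * GG h J (k + 1) + (k + 1) * GG h J k
      = (2 * J + 1) * aa h J * ((2 * J + 1).choose (k + 1) : A) := by
  induction J with
  | zero =>
    rcases k with _ | k
    · simp [GG, aa]
    · simp [GG, aa, Nat.choose_eq_zero_of_lt]
  | succ J ih =>
    rw [GG, GG, sum_range_succ, sum_range_succ _ (J + 1)]
    rw [GG, GG] at ih
    have h1 := aa_succ hh J
    -- binomial facts
    have e1 : (((2 * (J + 1) + 1).choose (k + 1) : ℕ) : A)
        = ((2 * (J + 1)).choose k : A) + ((2 * (J + 1)).choose (k + 1) : A) := by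
      rw [Nat.choose_succ_succ]; push_cast; rfl
    have e2 : ((k : A) + 1) * ((2 * (J + 1)).choose (k + 1) : A)
        = (2 * J + 2 - k) * ((2 * (J + 1)).choose k : A) := by
      rcases Nat.lt_or_ge (2 * (J + 1)) k with hlt | hge
      · rw [Nat.choose_eq_zero_of_lt hlt, Nat.choose_eq_zero_of_lt (by omega)]; simp
      · have := Nat.choose_succ_right_eq (2 * (J + 1)) k
        have h3 : ((((2 * (J + 1)).choose (k + 1) * (k + 1) : ℕ)) : A)
          = (((2 * (J + 1)).choose k * (2 * (J + 1) - k) : ℕ) : A) := by rw [this]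
        push_cast [Nat.cast_sub hge] at h3
        linear_combination h3
    have e3 : ((2 * J + 2 : ℕ) : A) * ((2 * J + 1).choose (k + 1) : A)
        = ((2 * J + 2 : A) - (k + 1)) * ((2 * (J + 1)).choose (k + 1) : A) := by
      rcases Nat.lt_or_ge (2 * J + 1) (k + 1) with hlt | hge
      · rw [Nat.choose_eq_zero_of_lt hlt]
        rcases Nat.lt_or_ge (2 * (J + 1)) (k + 1) with hlt2 | hge2
        · rw [Nat.choose_eq_zero_of_lt hlt2]; simp
        · have : k = 2 * J + 1 := by omega
          subst this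
          push_cast
          ring
      · have h4 : (((2 * J + 2) * (2 * J + 1).choose (k + 1) : ℕ) : A)
          = (((2 * J + 2).choose (k + 1) * (2 * J + 2 - (k + 1)) : ℕ) : A) := by
          have h5 := Nat.choose_mul_succ_eq (2 * J + 1) (k + 1)
          rw [show 2 * J + 1 + 1 = 2 * J + 2 by ring] at h5
          rw [← h5, mul_comm]
        rw [Nat.cast_mul, Nat.cast_mul, Nat.cast_sub (show k + 1 ≤ 2 * J + 2 by omega)] at h4
        push_cast at h4
        rw [show 2 * (J + 1) = 2 * J + 2 by ring]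
        push_cast
        linear_combination h4
    push_cast at e3
    push_cast
    rw [e1]
    linear_combination ih - ((2 * J + 1).choose (k + 1) : A) * h1 + aa h (J + 1) * e3
      + aa h (J + 1) * e2

end Pool.Agent.H13.TR
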