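import Pool.Agent.H13.TR.ValC

/-! The first sum. -/

namespace Pool.Agent.H13.TR

open Finset Polynomial

variable {p n : ℕ} {A : Type*} [CommRing A] {c : ℕ → A}

/-- partial sums `∑_{m<M} a_m binom(m,k)` -/
def HH1 (h : A) (M k : ℕ) : A := ∑ m ∈ range M, aa h m * (m.choose k : A)

lemma HH1_eq {h : A} (hh : 2 * h = 1) (M k : ℕ) :
    (2 * k + 1) * HH1 h M k = 2 * ((M : A) - k) * (M.choose k : A) * aa h M := by
  induction M with
  | zero =>
    rcases k with _ | k
    · simp [HH1]
    · simp [HH1]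
  | succ M ih =>
    rw [HH1, sum_range_succ]
    rw [HH1] at ih
    rw [mul_add, ih]
    have a1 := aa_succ hh M
    have e4 : ((M.choose k : A) * (M + 1)) = ((M + 1).choose k : A) * (M + 1 - k) := by
      rcases Nat.lt_or_ge (M + 1) k with hlt | hge
      · rw [Nat.choose_eq_zero_of_lt hlt, Nat.choose_eq_zero_of_lt (by omega)]; simp
      · have h5 := Nat.choose_mul_succ_eq M k
        have h6 : (((M.choose k) * (M + 1) : ℕ) : A) = (((M + 1).choose k * (M + 1 - k) : ℕ) : A) := by rw [h5]
        rw [Nat.cast_mul, Nat.cast_mul, Nat.cast_sub hge] at h6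
        push_cast at h6
        exact h6
    push_cast
    linear_combination (-(M.choose k : A)) * a1 + (2 * aa h (M + 1)) * e4

/-- `binom(p,k+1) = (-1)^k p/(k+1)` -/
lemma choose_p (H : Good p n A c) {k : ℕ} (hk : k + 1 < p) :
    (p.choose (k + 1) : A) = (-1) ^ k * (p * c (k + 1)) := by
  apply H.cancel (k := k + 1) (by omega) hk
  have h1 : (((p - 1 + 1) * (p - 1).choose k : ℕ) : A) = (((p - 1 + 1).choose (k + 1) * (k + 1) : ℕ) : A) := by
    rw [Nat.add_one_mul_choose_eq]
  rw [show p - 1 + 1 = p by omega] at h1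
  push_cast at h1
  have h2 := H.p_choose_pred (show k < p by omega)
  have h3 := H.hc (k + 1) (by omega) hk
  push_cast at h3 ⊢
  linear_combination h2 - h1 - (-1) ^ k * p * h3

lemma choose_pred (H : Good p n A c) {k : ℕ} (hk : k < p) :
    ((p - 1).choose k : A) = (-1) ^ k * (1 - p * ∑ i ∈ range k, c (i + 1)) := by
  induction k with
  | zero => simp
  | succ k ih =>
    have h := Nat.choose_succ_succ (p - 1) k
    have hp : p - 1 + 1 = p := by omega
    rw [Nat.succ_eq_add_one, Nat.succ_eq_add_one, hp] at h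
    have h2 : ((p.choose (k + 1) : ℕ) : A) = (((p - 1).choose k + (p - 1).choose (k + 1) : ℕ) : A) := by rw [h]
    push_cast at h2
    rw [choose_p H hk, ih (by omega)] at h2
    rw [sum_range_succ, pow_succ]
    linear_combination -h2

lemma p_c_refl (H : Good p n A c) {k : ℕ} (h0 : 0 < k) (h1 : k < p) : (p : A) * c (p - k) = - (p * c k) := by
  have h2 := H.hc k h0 h1
  have h3 := H.hc (p - k) (by omega) (by omega)
  rw [Nat.cast_sub h1.le] at h3
  have hsq := H.sq
  set x := c (p - k)
  set y := c k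
  have h4 : x = -y + p * y * x := by
    linear_combination (-x) * h2 + (-y) * h3
  linear_combination p * h4 + y * x * hsq

lemma p_sum_c (H : Good p n A c) : (p : A) * ∑ i ∈ range (p - 1), c (i + 1) = 0 := by
  have h1 : (p : A) * ∑ i ∈ range (p - 1), c (i + 1) = - ((p : A) * ∑ i ∈ range (p - 1), c (i + 1)) := by
    conv_lhs => rw [← sum_range_reflect]
    rw [mul_sum, mul_sum, ← sum_neg_distrib]
    refine sum_congr rfl ?_
    intro i hi
    rw [mem_range] at hi
    rw [show p - 1 - 1 - i + 1 = p - (i + 1) by omega, p_c_refl H (by omega) (by omega)]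
  have h3 := H.h3
  apply H.cancel (k := 2) (by omega) (by omega)
  push_cast
  linear_combination h1

/-- `binom(p-1,n) = (-1)^n (2^p - 1)` -/
lemma morley (H : Good p n A c) : ((p - 1).choose n : A) = (-1) ^ n * (2 ^ p - 1) := by
  have hn := H.hn
  have h3 := H.h3
  rw [choose_pred H (by omega)]
  have h1 : (2 : A) ^ p = 2 + ∑ k ∈ range (p - 1), (-1) ^ k * (p * c (k + 1)) := by
    have h2 : ((∑ m ∈ range (p + 1), p.choose m : ℕ) : A) = ((2 ^ p : ℕ) : A) := by rw [Nat.sum_range_choose]
    push_cast at h2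
    rw [← h2, sum_range_succ, show p = p - 1 + 1 by omega, sum_range_succ', ← show p = p - 1 + 1 by omega,
      Nat.choose_self, Nat.choose_zero_right]
    have h4 : ∀ k ∈ range (p - 1), (p.choose (k + 1) : A) = (-1) ^ k * (p * c (k + 1)) := by
      intro k hk
      rw [mem_range] at hk
      exact choose_p H (by omega)
    rw [sum_congr rfl h4]
    push_cast
    ring
  have h4 : ∀ (N : ℕ) (f : ℕ → A), ∑ i ∈ range (2 * N), f i = ∑ k ∈ range N, (f (2 * k) + f (2 * k + 1)) := by
    intro N f
    induction N with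
    | zero => simp
    | succ N ih => rw [show 2 * (N + 1) = 2 * N + 1 + 1 by ring, sum_range_succ, sum_range_succ, sum_range_succ, ih]; ring
  have h5 := p_sum_c H
  rw [show p - 1 = 2 * n by omega, h4] at h1 h5
  have h6 : ∀ k ∈ range n, (p : A) * c (k + 1) = 2 * p * c (2 * k + 1 + 1) := by
    intro k hk
    rw [mem_range] at hk
    apply H.cancel (k := k + 1) (by omega) (by omega)
    have e1 := H.hc (k + 1) (by omega) (by omega)
    have e2 := H.hc (2 * k + 1 + 1) (by omega) (by omega)
    push_cast at e1 e2 ⊢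
    linear_combination p * e1 - p * e2
  have h7 : (p : A) * ∑ i ∈ range n, c (i + 1) = ∑ k ∈ range n, 2 * p * c (2 * k + 1 + 1) := by
    rw [mul_sum, sum_congr rfl h6]
  rw [h7, h1]
  have h8 : ∑ k ∈ range n, ((-1 : A) ^ (2 * k) * (p * c (2 * k + 1)) + (-1) ^ (2 * k + 1) * (p * c (2 * k + 1 + 1)))
      = p * ∑ k ∈ range n, (c (2 * k + 1) + c (2 * k + 1 + 1)) - ∑ k ∈ range n, 2 * p * c (2 * k + 1 + 1) := by
    rw [mul_sum, ← sum_sub_distrib]
    refine sum_congr rfl ?_
    intro k _
    rw [pow_succ, pow_mul]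
    norm_num
    ring
  rw [h8, h5]
  ring

lemma cb_p (H : Good p n A c) : (p.centralBinom : A) = 2 := by
  have h3 := H.h3
  have h1 : ((∑ i ∈ range (p + 1), (p.choose i) ^ 2 : ℕ) : A) = (((2 * p).choose p : ℕ) : A) := by
    rw [Nat.sum_range_choose_sq]
  rw [Nat.centralBinom, ← h1]
  push_cast
  rw [sum_range_succ, show p = p - 1 + 1 by omega, sum_range_succ', ← show p = p - 1 + 1 by omega,
      Nat.choose_self, Nat.choose_zero_right]
  have z : ∑ k ∈ range (p - 1), ((p.choose (k + 1) : A)) ^ 2 = 0 := by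
    refine sum_eq_zero ?_
    intro k hk
    rw [mem_range] at hk
    rw [choose_p H (by omega)]
    linear_combination (((-1) ^ k) ^ 2 * c (k + 1) ^ 2) * H.sq
  rw [z]
  push_cast
  ring

end Pool.Agent.H13.TR
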