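import Pool.Agent.H13.TR.Val1

/-! The first sum, continued. -/

namespace Pool.Agent.H13.TR

open Finset Polynomial

variable {p n : ℕ} {A : Type*} [CommRing A] {c : ℕ → A}

lemma HH1_all (H : Good p n A c) {k : ℕ} (hk : k < p) :
    (2 * k + 1) * HH1 (c 2) p k = (-1) ^ k * p := by
  rw [HH1_eq H.two]
  have h1 : (((p : A) - k) * (p.choose k : A)) = p * ((p - 1).choose k : A) := by
    have h2 := Nat.choose_mul_succ_eq (p - 1) k
    rw [show p - 1 + 1 = p by omega] at h2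
    have h3 : (((p - 1).choose k * p : ℕ) : A) = ((p.choose k * (p - k) : ℕ) : A) := by rw [h2]
    rw [Nat.cast_mul, Nat.cast_mul, Nat.cast_sub hk.le] at h3
    linear_combination -h3
  have h2 := H.p_choose_pred hk
  have h3 := H.p_half
  have h4 := cb_p H
  have h5 := H.two
  rw [aa, h4]
  have h6 : c 2 ^ (2 * p) = (c 2 ^ (p - 1)) ^ 2 * (c 2 ^ 2) := by
    rw [← pow_mul, ← pow_add]; congr 1; omega
  rw [h6]
  set x := c 2 ^ (p - 1)
  set C1 := ((p - 1).choose k : A)
  have h7 : (p : A) * x ^ 2 = p := by linear_combination (x + 1) * h3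
  linear_combination (4 * x ^ 2 * c 2 ^ 2) * h1 + (4 * x ^ 2 * c 2 ^ 2) * h2
    + ((-1) ^ k * 4 * c 2 ^ 2) * h7 + ((-1) ^ k * p * (2 * c 2 + 1)) * h5

/-- exact value of the middle sum (over the integers) -/
lemma mid_int (hn : p = 2 * n + 1) :
    2 * ∑ m ∈ range p, (m.centralBinom : ℤ) * (m.choose n : ℤ) * 4 ^ (p - 1 - m)
      = (p.centralBinom : ℤ) * ((p - 1).choose n : ℤ) := by
  have h1 := HH1_eq (A := ℚ) (h := 1 / 2) (by norm_num) p n
  have hp : (p : ℚ) ≠ 0 := by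
    have : p ≠ 0 := by omega
    exact_mod_cast this
  have e2 : ((2 * (n : ℚ) + 1)) = p := by rw [hn]; push_cast; ring
  rw [e2] at h1
  have h2 : (((p : ℚ) - n) * (p.choose n : ℚ)) = p * ((p - 1).choose n : ℚ) := by
    have h2 := Nat.choose_mul_succ_eq (p - 1) n
    rw [show p - 1 + 1 = p by omega] at h2
    have h3 : (((p - 1).choose n * p : ℕ) : ℚ) = ((p.choose n * (p - n) : ℕ) : ℚ) := by rw [h2]
    rw [Nat.cast_mul, Nat.cast_mul, Nat.cast_sub (show n ≤ p by omega)] at h3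
    linear_combination -h3
  have h3 : HH1 (1 / 2 : ℚ) p n = 2 * ((p - 1).choose n : ℚ) * aa (1 / 2 : ℚ) p := by
    apply mul_left_cancel₀ hp
    linear_combination h1 + 2 * aa (1 / 2 : ℚ) p * h2
  have h4 : ∀ m ∈ range p, (m.centralBinom : ℚ) * (m.choose n : ℚ) * 4 ^ (p - 1 - m)
      = 4 ^ (p - 1) * (aa (1 / 2 : ℚ) m * (m.choose n : ℚ)) := by
    intro m hm
    rw [mem_range] at hm
    have h5 : (4 : ℚ) ^ (p - 1) = 4 ^ (p - 1 - m) * 4 ^ m := by rw [← pow_add]; congr 1; omega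
    rw [h5, aa, pow_mul]
    have h6 : (4 : ℚ) ^ m * ((1 / 2) ^ 2) ^ m = 1 := by rw [← mul_pow]; norm_num
    linear_combination (-(m.centralBinom : ℚ) * (m.choose n : ℚ) * 4 ^ (p - 1 - m)) * h6
  have h5 : (2 : ℚ) * ∑ m ∈ range p, (m.centralBinom : ℚ) * (m.choose n : ℚ) * 4 ^ (p - 1 - m)
      = (p.centralBinom : ℚ) * ((p - 1).choose n : ℚ) := by
    rw [sum_congr rfl h4, ← mul_sum]
    have : ∑ m ∈ range p, aa (1 / 2 : ℚ) m * (m.choose n : ℚ) = HH1 (1 / 2 : ℚ) p n := rfl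
    rw [this, h3, aa, pow_mul]
    have h7 : (4 : ℚ) ^ p = 4 ^ (p - 1) * 4 := by rw [← pow_succ]; congr 1; omega
    have h8 : (4 : ℚ) ^ p * ((1 / 2) ^ 2) ^ p = 1 := by rw [← mul_pow]; norm_num
    rw [h7] at h8
    linear_combination ((p.centralBinom : ℚ) * ((p - 1).choose n : ℚ)) * h8
  exact_mod_cast h5

lemma HH1_n (H : Good p n A c) :
    HH1 (c 2) p n = ((p - 1).choose n : A) * c 2 ^ (2 * (p - 1)) := by
  have hn := H.hn
  have h3 := H.h3
  have h1 := congrArg (fun x : ℤ => (x : A)) (mid_int hn)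
  push_cast at h1
  rw [cb_p H] at h1
  have h2 : ∑ m ∈ range p, (m.centralBinom : A) * (m.choose n : A) * 4 ^ (p - 1 - m) = ((p - 1).choose n : A) := by
    apply H.cancel (k := 2) (by omega) (by omega)
    push_cast
    exact h1
  rw [← h2, HH1, sum_mul]
  refine sum_congr rfl ?_
  intro m hm
  rw [mem_range] at hm
  have h4 : (4 : A) ^ (p - 1 - m) * c 2 ^ (2 * (p - 1)) = c 2 ^ (2 * m) := by
    have h5 : c 2 ^ (2 * (p - 1)) = (c 2 ^ 2) ^ (p - 1 - m) * c 2 ^ (2 * m) := by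
      rw [← pow_mul, ← pow_add]; congr 1; omega
    have h6 : (4 : A) * c 2 ^ 2 = 1 := by linear_combination (2 * c 2 + 1) * H.two
    rw [h5, ← mul_assoc, ← mul_pow, h6, one_pow, one_mul]
  rw [aa]
  linear_combination (-(m.centralBinom : A) * (m.choose n : A)) * h4

/-- coefficients `p/(2k+1)` for `k<n`, and `1` for `k=n` -/
def cc (p n : ℕ) (c : ℕ → A) (k : ℕ) : A := if k = n then 1 else p * c (2 * k + 1)

lemma cc_eq (H : Good p n A c) {k : ℕ} (hk : k ≤ n) : (2 * k + 1) * cc p n c k = p := by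
  have hn := H.hn
  rw [cc]
  split_ifs with h
  · rw [h, mul_one, hn]; push_cast; ring
  · have := H.hc (2 * k + 1) (by omega) (by omega)
    push_cast at this
    linear_combination p * this

/-- the polynomial -/
noncomputable def PF (p n : ℕ) (c : ℕ → A) : A[X] :=
  ∑ k ∈ range (n + 1), C ((n.choose k : A) * (-1) ^ k * 4 ^ (n - k) * cc p n c k) * ((X + 1) ^ (2 * k + 1) * X ^ (n - k))

lemma X_mul_derivative_pow (m : ℕ) : (X : A[X]) * derivative (X ^ m) = (m : A[X]) * X ^ m := by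
  rw [derivative_X_pow]
  rcases m with _ | m
  · simp
  · rw [pow_succ]
    simp
    ring

lemma ode_F (H : Good p n A c) :
    2 * X * derivative (PF p n c) - (p : A[X]) * PF p n c = C ((-1) ^ n * (p : A)) * (X - 1) ^ p := by
  have hn := H.hn
  have e0 : ((2 * (n : A[X]) + 1)) = p := by rw [hn]; push_cast; ring
  have h1 : ∀ k ∈ range (n + 1),
      2 * X * derivative (C ((n.choose k : A) * (-1) ^ k * 4 ^ (n - k) * cc p n c k) * ((X + 1) ^ (2 * k + 1) * X ^ (n - k)))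
      - (p : A[X]) * (C ((n.choose k : A) * (-1) ^ k * 4 ^ (n - k) * cc p n c k) * ((X + 1) ^ (2 * k + 1) * X ^ (n - k)))
      = C (p : A) * (X - 1) * ((-(X + 1) ^ 2) ^ k * (4 * X) ^ (n - k) * (n.choose k : A[X])) := by
    intro k hk
    rw [mem_range] at hk
    have e1 := cc_eq H (show k ≤ n by omega)
    have e2 : (2 * (k : A[X]) + 1) * C (cc p n c k) = C (p : A) := by
      have := congrArg (C : A → A[X]) e1
      simp only [map_mul, map_add, map_one, map_natCast, map_ofNat] at this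
      rw [map_natCast]
      exact this
    rw [derivative_C_mul, derivative_mul]
    have e3 := X_mul_derivative_pow (A := A) (n - k)
    have e4 : derivative ((X + 1 : A[X]) ^ (2 * k + 1)) = (2 * (k : A[X]) + 1) * (X + 1) ^ (2 * k) := by
      have e7 : derivative (X + 1 : A[X]) = 1 := by simp
      rw [derivative_pow, e7, mul_one]
      simp only [map_natCast, Nat.add_sub_cancel]
      push_cast
      ring
    rw [e4]
    rw [Nat.cast_sub (show k ≤ n by omega)] at e3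
    have e5 : (-(X + 1 : A[X]) ^ 2) ^ k = (-1) ^ k * (X + 1) ^ (2 * k) := by
      rw [neg_pow, ← pow_mul]
    rw [e5, mul_pow, pow_succ (X + 1 : A[X]) (2 * k)]
    simp only [C_mul, C_pow, C_neg, C_1, map_natCast, map_ofNat] at e2 ⊢
    linear_combination ((2 * (n.choose k : A[X]) * (-1) ^ k * 4 ^ (n - k) * C (cc p n c k) * ((X + 1) ^ (2 * k) * (X + 1)))) * e3
      + ((n.choose k : A[X]) * (-1) ^ k * 4 ^ (n - k) * (X + 1) ^ (2 * k) * X ^ (n - k) * (X - 1)) * e2
      + ((n.choose k : A[X]) * (-1) ^ k * 4 ^ (n - k) * C (cc p n c k) * ((X + 1) ^ (2 * k) * (X + 1)) * X ^ (n - k)) * e0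
  rw [PF, derivative_sum, mul_sum, mul_sum, ← sum_sub_distrib, sum_congr rfl h1, ← mul_sum, ← add_pow]
  have e6 : (-(X + 1 : A[X]) ^ 2 + 4 * X) = - (X - 1) ^ 2 := by ring
  rw [e6, neg_pow, ← pow_mul, hn]
  simp only [C_mul, C_pow, C_neg, C_1, map_natCast]
  push_cast
  ring

end Pool.Agent.H13.TR
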