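import Pool.Agent.H13.TR.Val1b

/-! The first sum, end. -/

namespace Pool.Agent.H13.TR

open Finset Polynomial

variable {p n : ℕ} {A : Type*} [CommRing A] {c : ℕ → A}

lemma coeff_sub_one_pow (m k : ℕ) : ((X - 1 : A[X]) ^ m).coeff k = (-1) ^ m * ((-1) ^ k * (m.choose k : A)) := by
  have h1 : (X - 1 : A[X]) ^ m = C ((-1) ^ m) * (1 - X) ^ m := by
    rw [C_pow, ← mul_pow]
    congr 1
    simp
  rw [h1, coeff_C_mul, coeff_one_sub_X_pow']

lemma coeff_PF_mid (H : Good p n A c) {i : ℕ} (h0 : 0 < i) (hi : i < p) : (PF p n c).coeff i = 0 := by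
  have h1 := congrArg (fun P : A[X] => P.coeff i) (ode_F H)
  simp only [coeff_sub, coeff_C_mul, coeff_sub_one_pow] at h1
  have h3 := H.h3
  have e1 : (2 * X * derivative (PF p n c)).coeff i = 2 * i * (PF p n c).coeff i := by
    rcases i with _ | i
    · omega
    · rw [mul_assoc, coeff_ofNat_mul, coeff_X_mul, coeff_derivative]
      push_cast
      ring
  have e2 : ((p : A[X]) * PF p n c).coeff i = p * (PF p n c).coeff i := by
    rw [← map_natCast (C : A →+* A[X]), coeff_C_mul]
  rw [e1, e2] at h1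
  have e3 := H.p_choose h0 hi
  have h2 : (2 * i - (p : A)) * (PF p n c).coeff i = 0 := by
    linear_combination h1 + (-1) ^ n * ((-1) ^ p * (-1) ^ i) * e3
  have h4 : (p : A) * (PF p n c).coeff i = 0 := by
    apply H.cancel (k := i) h0 hi
    apply H.cancel (k := 2) (by omega) (by omega)
    push_cast
    linear_combination p * h2 + (PF p n c).coeff i * H.sq
  apply H.cancel (k := i) h0 hi
  apply H.cancel (k := 2) (by omega) (by omega)
  push_cast
  linear_combination h2 + h4

lemma coeff_PF_zero (n : ℕ) (c : ℕ → A) : (PF p n c).coeff 0 = (-1) ^ n := by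
  rw [coeff_zero_eq_eval_zero, PF, eval_finsetSum, sum_range_succ, sum_eq_zero]
  · simp [cc]
  · intro k hk
    rw [mem_range] at hk
    have : n - k ≠ 0 := by omega
    simp [this]

lemma natDegree_PF (hn : p = 2 * n + 1) (c : ℕ → A) : (PF p n c).natDegree ≤ p := by
  rw [PF]
  refine natDegree_sum_le_of_forall_le _ _ ?_
  intro k hk
  rw [mem_range] at hk
  refine (natDegree_C_mul_le _ _).trans ?_
  refine natDegree_mul_le.trans ?_
  have h1 : ((X + 1 : A[X]) ^ (2 * k + 1)).natDegree ≤ 2 * k + 1 := by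
    refine natDegree_pow_le.trans ?_
    have : (X + 1 : A[X]).natDegree ≤ 1 := by
      refine (natDegree_add_le _ _).trans ?_
      simp [natDegree_X_le]
    calc (2 * k + 1) * (X + 1 : A[X]).natDegree ≤ (2 * k + 1) * 1 := Nat.mul_le_mul_left _ this
      _ = 2 * k + 1 := by ring
  have h2 : ((X : A[X]) ^ (n - k)).natDegree ≤ n - k := natDegree_X_pow_le _
  omega

lemma coeff_PF_top (H : Good p n A c) : (PF p n c).coeff p = (-1) ^ n := by
  have hn := H.hn
  rw [PF, finsetSum_coeff, sum_range_succ, sum_eq_zero]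
  · rw [coeff_C_mul, Nat.sub_self, pow_zero X, mul_one, ← hn, coeff_X_add_one_pow, cc, if_pos rfl]
    simp
  · intro k hk
    rw [mem_range] at hk
    rw [coeff_C_mul, coeff_mul_X_pow', if_pos (by omega), coeff_X_add_one_pow,
      Nat.choose_eq_zero_of_lt (show 2 * k + 1 < p - (n - k) by omega)]
    simp

lemma PF_eval_three (H : Good p n A c) : (PF p n c).eval 3 = (-1) ^ n * (3 ^ p + 1) := by
  rw [eval_eq_sum_range' (show (PF p n c).natDegree < p + 1 from Nat.lt_succ_of_le (natDegree_PF H.hn c)),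
    sum_range_succ, coeff_PF_top H]
  have h3 := H.h3
  rw [show p = p - 1 + 1 by omega, sum_range_succ', ← show p = p - 1 + 1 by omega, coeff_PF_zero]
  rw [sum_eq_zero]
  · ring
  · intro i hi
    rw [mem_range] at hi
    rw [coeff_PF_mid H (by omega) (by omega), zero_mul]

lemma p_cb_eq (H : Good p n A c) {k : ℕ} (hk : k ≤ n) :
    (p : A) * (k.centralBinom : A) = p * ((-4) ^ k * (n.choose k : A)) := by
  induction k with
  | zero => simp
  | succ k ih =>
    have hn := H.hn
    have ih := ih (by omega)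
    have e4 : (((k + 1) * (k + 1).centralBinom : ℕ) : A) = ((2 * (2 * k + 1) * k.centralBinom : ℕ) : A) := by
      rw [Nat.succ_mul_centralBinom_succ]
    have e2 : ((((k + 1) : ℕ) : A) * (n.choose (k + 1) : A)) = (n - k) * (n.choose k : A) := by
      have h3 : ((n.choose (k + 1) * (k + 1) : ℕ) : A) = ((n.choose k * (n - k) : ℕ) : A) := by
        rw [Nat.choose_succ_right_eq]
      push_cast [Nat.cast_sub (show k ≤ n by omega)] at h3
      push_cast
      linear_combination h3
    have e5 : ((2 * (n : A) + 1)) = p := by rw [H.hn]; push_cast; ring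
    push_cast at e4 e2
    apply H.cancel (k := k + 1) (by omega) (by omega)
    push_cast
    rw [pow_succ]
    linear_combination p * e4 + (2 * (2 * k + 1)) * ih + 4 * p * (-4) ^ k * e2
      + (2 * p * (-4) ^ k * (n.choose k : A)) * e5
      + (2 * (-4) ^ k * (n.choose k : A)) * H.sq

lemma p_dvd_cb (H : Good p n A c) {k : ℕ} (h1 : n < k) (h2 : k < p) :
    (p : A) * (k.centralBinom : A) = 0 := by
  have hn := H.hn
  have h := H.mul_of_dvd (x := (k.centralBinom : ℤ)) (Int.natCast_dvd_natCast.mpr (by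
    rw [Nat.centralBinom, Nat.choose_eq_factorial_div_factorial (by omega)]
    have h3 : (2 * k).factorial = (2 * k).choose k * k.factorial * (2 * k - k).factorial :=
      (Nat.choose_mul_factorial_mul_factorial (show k ≤ 2 * k by omega)).symm
    have h4 : p ∣ (2 * k).factorial := (H.prime.dvd_factorial).mpr (by omega)
    have h5 : ¬ p ∣ k.factorial := by
      rw [H.prime.dvd_factorial]; omega
    rw [← Nat.choose_eq_factorial_div_factorial (by omega)]
    rw [h3, show 2 * k - k = k by omega] at h4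
    rcases (Nat.Prime.dvd_mul H.prime).mp h4 with h6 | h6
    · rcases (Nat.Prime.dvd_mul H.prime).mp h6 with h7 | h7
      · exact h7
      · exact absurd h7 h5
    · exact absurd h6 h5))
  simpa using h

/-- The first sum: `4 (-3)^n ∑_{m<p} a_m τ_m(-1/3) = 3^p + 1`. -/
theorem first_sum_aux (H : Good p n A c) :
    4 * (-3) ^ n * ∑ m ∈ range p, aa (c 2) m * tau (-c 3) m = 3 ^ p + 1 := by
  have hn := H.hn
  have h3 := H.h3
  -- exchange sums
  have e1 : ∑ m ∈ range p, aa (c 2) m * tau (-c 3) m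
      = ∑ k ∈ range p, HH1 (c 2) p k * (k.centralBinom : A) * (-c 3) ^ k := by
    have h1 : ∀ m ∈ range p, aa (c 2) m * tau (-c 3) m = ∑ k ∈ range p,
        aa (c 2) m * ((m.choose k : A) * (k.centralBinom : A) * (-c 3) ^ k) := by
      intro m hm
      rw [mem_range] at hm
      rw [tau_eq _ hm, mul_sum]
    rw [sum_congr rfl h1, sum_comm]
    refine sum_congr rfl ?_
    intro k _
    rw [HH1, sum_mul, sum_mul]
    refine sum_congr rfl ?_
    intro m _
    ring
  -- vanishing for k > n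
  have e2 : ∀ k, n < k → k < p → HH1 (c 2) p k * (k.centralBinom : A) = 0 := by
    intro k hk1 hk2
    have h4 := HH1_all H hk2
    have h5 : (p : A) * HH1 (c 2) p k = 0 := by
      have h6 : ((2 * k + 1 - p : ℕ) : A) * ((p : A) * HH1 (c 2) p k) = ((2 * k + 1 - p : ℕ) : A) * 0 := by
        rw [Nat.cast_sub (by omega)]
        push_cast
        linear_combination p * h4 + ((-1) ^ k - HH1 (c 2) p k) * H.sq
      exact H.cancel (k := 2 * k + 1 - p) (by omega) (by omega) h6
    apply H.cancel (k := 2 * k + 1 - p) (by omega) (by omega)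
    rw [Nat.cast_sub (by omega)]
    push_cast
    have h7 := p_dvd_cb H hk1 hk2
    linear_combination (k.centralBinom : A) * h4 - (k.centralBinom : A) * h5 + (-1) ^ k * h7
  have e3 : ∑ k ∈ range p, HH1 (c 2) p k * (k.centralBinom : A) * (-c 3) ^ k
      = ∑ k ∈ range (n + 1), HH1 (c 2) p k * (k.centralBinom : A) * (-c 3) ^ k := by
    symm
    refine sum_subset (range_subset_range.mpr (by omega)) ?_
    intro k hk1 hk2
    rw [mem_range] at hk1 hk2
    rw [e2 k (by omega) hk1, zero_mul]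
  -- k < n
  have e4 : ∀ k ∈ range n, HH1 (c 2) p k * (k.centralBinom : A) * (-c 3) ^ k
      = (n.choose k : A) * (-(4 * c 3)) ^ k * cc p n c k := by
    intro k hk
    rw [mem_range] at hk
    have h4 := HH1_all H (show k < p by omega)
    have h5 := p_cb_eq H (show k ≤ n by omega)
    have h6 := cc_eq H (show k ≤ n by omega)
    apply H.cancel (k := 2 * k + 1) (by omega) (by omega)
    push_cast
    have h7 : (-c 3) ^ k = (-1) ^ k * c 3 ^ k := by rw [neg_pow]
    have h8 : (-(4 * c 3)) ^ k = (-4) ^ k * c 3 ^ k := by rw [← mul_pow]; congr 1; ring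
    rw [h7, h8]
    have h9 : ((-1 : A) ^ k) * (-1) ^ k = 1 := by rw [← pow_add, ← two_mul, pow_mul]; simp
    linear_combination ((k.centralBinom : A) * ((-1) ^ k * c 3 ^ k)) * h4
      + (p * (k.centralBinom : A) * c 3 ^ k) * h9 + c 3 ^ k * h5
      - ((n.choose k : A) * ((-4) ^ k * c 3 ^ k)) * h6
  -- middle
  have e5 : HH1 (c 2) p n * (n.centralBinom : A) = (2 ^ p - 1) ^ 2 * c 2 ^ (2 * (p - 1)) := by
    rw [HH1_n H, Nat.centralBinom, show 2 * n = p - 1 by omega, morley H]
    have h9 : ((-1 : A) ^ n) * (-1) ^ n = 1 := by rw [← pow_add, ← two_mul, pow_mul]; simp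
    linear_combination ((2 ^ p - 1) ^ 2 * c 2 ^ (2 * (p - 1))) * h9
  -- the polynomial
  have e6 : (PF p n c).eval 3 = 4 * 4 ^ n * 3 ^ n * ∑ k ∈ range (n + 1), (n.choose k : A) * (-(4 * c 3)) ^ k * cc p n c k := by
    rw [PF, eval_finsetSum, mul_sum]
    refine sum_congr rfl ?_
    intro k hk
    rw [mem_range] at hk
    simp only [eval_mul, eval_C, eval_pow, eval_add, eval_X, eval_one]
    have h10 : (3 : A) ^ n * c 3 ^ k = 3 ^ (n - k) := by
      have h11 : (3 : A) ^ n = 3 ^ (n - k) * 3 ^ k := by rw [← pow_add]; congr 1; omega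
      rw [h11, mul_assoc, ← mul_pow, H.three, one_pow, mul_one]
    have h12 : (4 : A) ^ n = 4 ^ (n - k) * 4 ^ k := by rw [← pow_add]; congr 1; omega
    have h13 : ((3 : A) + 1) ^ (2 * k + 1) = 4 * 4 ^ k * 4 ^ k := by
      rw [show (3 : A) + 1 = 4 by norm_num, pow_succ, two_mul, pow_add]; ring
    have h14 : (-(4 * c 3)) ^ k = (-1) ^ k * 4 ^ k * c 3 ^ k := by
      rw [neg_pow, mul_pow]; ring
    rw [h13, h14, h12]
    linear_combination (-(4 * (4 ^ (n - k) * 4 ^ k) * ((n.choose k : A) * ((-1) ^ k * 4 ^ k) * cc p n c k))) * h10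
  rw [PF_eval_three H] at e6
  rw [sum_range_succ] at e6
  rw [e1, e3, sum_range_succ, sum_congr rfl e4, e5]
  have e7 : cc p n c n = 1 := by rw [cc, if_pos rfl]
  rw [e7, Nat.choose_self] at e6
  obtain ⟨y, hy⟩ := H.fermat (k := 2) (by omega) (by omega)
  push_cast at hy
  have e8 : (4 : A) ^ n = 1 + p * y := by rw [H.four_pow, hy]
  have e9 : (2 : A) ^ p = 2 + 2 * p * y := by
    calc (2 : A) ^ p = 2 ^ (p - 1) * 2 := by rw [← pow_succ]; congr 1; omega
      _ = _ := by rw [hy]; ring
  have e10 : c 2 ^ (p - 1) = 1 - p * y := by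
    have h15 : (2 : A) ^ (p - 1) * c 2 ^ (p - 1) = 1 := by rw [← mul_pow, H.two, one_pow]
    rw [hy] at h15
    have hsq := H.sq
    linear_combination (1 - p * y) * h15 + (y ^ 2 * c 2 ^ (p - 1)) * hsq
  have e11 : c 2 ^ (2 * (p - 1)) = 1 - 2 * p * y := by
    rw [mul_comm, pow_mul, e10]
    linear_combination y ^ 2 * H.sq
  have e12 : (-(4 * c 3)) ^ n = 4 ^ n * (-c 3) ^ n := by rw [← mul_pow]; congr 1; ring
  rw [e12, e8] at e6
  rw [e9, e11]
  have e13 : (-3 : A) ^ n = (-1) ^ n * 3 ^ n := by rw [neg_pow]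
  have e14 : (3 : A) ^ n * (-c 3) ^ n = (-1) ^ n := by
    rw [← mul_pow]
    congr 1
    linear_combination (-1 : A) * H.three
  have h9 : ((-1 : A) ^ n) * (-1) ^ n = 1 := by rw [← pow_add, ← two_mul, pow_mul]; simp
  obtain ⟨z, hz⟩ := H.fermat (k := 3) (by omega) (by omega)
  push_cast at hz
  have e15 : (3 : A) ^ p = 3 + 3 * p * z := by
    calc (3 : A) ^ p = 3 ^ (p - 1) * 3 := by rw [← pow_succ]; congr 1; omega
      _ = _ := by rw [hz]; ring
  rw [e13]
  rw [e15] at e6 ⊢
  set Q := ∑ k ∈ range n, (n.choose k : A) * (-(4 * c 3)) ^ k * cc p n c k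
  set G := (-c 3) ^ n
  set E := (-1 : A) ^ n
  set t := (3 : A) ^ n
  have hsq := H.sq
  have hQ : (p : A) * (t * Q) = 0 := by
    apply H.cancel (k := 2) (by omega) (by omega)
    apply H.cancel (k := 2) (by omega) (by omega)
    push_cast
    linear_combination (-(p : A)) * e6 - 4 * p * e14 + (3 * z * E - 4 * t * y * Q - 8 * t * y * G - 4 * p * t * y ^ 2 * G) * hsq
  push_cast at e6 ⊢
  linear_combination (-E) * e6 - 4 * E * y * hQ - (4 * E * t * G * (5 * y ^ 2 + 8 * p * y ^ 3)) * hsq
    + (4 + 3 * p * z) * h9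

end Pool.Agent.H13.TR
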