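import Pool.Agent.H13.TR.ValS

/-! Values of `FF` at `4` and `-3`. -/

namespace Pool.Agent.H13.TR

open Finset

variable {p n : ℕ} {A : Type*} [CommRing A] {c : ℕ → A}

lemma four_FF_four (H : Good p n A c) : 4 * FF p n (4 : A) = 7 - 3 ^ p := by
  have h1 := odd_part n (2 : A)
  have h2 := even_part n (2 : A)
  have hn := H.hn
  rw [sum_range_succ] at h1 h2
  rw [← hn, Nat.choose_self, Nat.sub_self, mul_zero, pow_zero] at h2
  rw [← hn, Nat.choose_self] at h1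
  have hodd : Odd p := ⟨n, hn⟩
  rw [show (1 : A) - 2 = -1 by ring, hodd.neg_one_pow, show (1 : A) + 2 = 3 by ring] at h1 h2
  have h3 : FF p n (4 : A) = 4 ^ n + (∑ k ∈ range n, (p.choose (2 * k + 1) : A) * 4 ^ k)
      - 4 ^ n * ∑ k ∈ range n, (p.choose (2 * k + 1) : A) * 2 ^ (2 * (n - k)) := by
    have h4 : ∀ k ∈ range n, (p.choose (2 * k + 1) : A) * (4 ^ k - 4 ^ (2 * n - k))
        = (p.choose (2 * k + 1) : A) * 4 ^ k - 4 ^ n * ((p.choose (2 * k + 1) : A) * 2 ^ (2 * (n - k))) := by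
      intro k hk
      rw [mem_range] at hk
      have e1 : (4 : A) ^ (2 * n - k) = 4 ^ n * 2 ^ (2 * (n - k)) := by
        rw [pow_mul (2 : A), show (2 : A) ^ 2 = 4 by norm_num, ← pow_add]
        congr 1
        omega
      rw [e1]
      ring
    rw [FF, sum_congr rfl h4, sum_sub_distrib, mul_sum]
    ring
  have h5 : ∑ k ∈ range n, (p.choose (2 * k + 1) : A) * 2 ^ (2 * k + 1)
      = 2 * ∑ k ∈ range n, (p.choose (2 * k + 1) : A) * 4 ^ k := by
    rw [mul_sum]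
    refine sum_congr rfl ?_
    intro k _
    rw [pow_succ, pow_mul]
    norm_num
    ring
  have h6 : (2 : A) ^ p = 2 * 4 ^ n := by
    rw [H.four_pow, ← pow_succ']
    congr 1
    omega
  rw [h5, h6] at h1
  obtain ⟨y, hy⟩ := H.fermat (k := 2) (by omega) (by have := H.h3; omega)
  obtain ⟨z, hz⟩ := H.fermat (k := 3) (by omega) (by have := H.h3; omega)
  push_cast at hy hz
  rw [← H.four_pow] at hy
  have h7 : (3 : A) ^ p = 3 + 3 * p * z := by
    calc (3 : A) ^ p = 3 ^ (p - 1) * 3 := by rw [← pow_succ]; congr 1; omega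
      _ = _ := by rw [hz]; ring
  set a := ∑ k ∈ range n, (p.choose (2 * k + 1) : A) * 4 ^ k
  set b := ∑ k ∈ range n, (p.choose (2 * k + 1) : A) * 2 ^ (2 * (n - k))
  rw [h3]
  have h2' : 4 * b = 2 * 3 ^ p - 6 := by push_cast at h2; linear_combination 2 * h2
  have h1' : 4 * a + 4 * 4 ^ n = 3 ^ p + 1 := by push_cast at h1; linear_combination h1
  have h8 : (4 : A) ^ n * (2 * 3 ^ p - 6) = 2 * 3 ^ p - 6 := by
    rw [hy, h7]
    linear_combination 6 * y * z * H.sq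
  linear_combination h1' - 4 ^ n * h2' - h8

/-- the symbol `(p/3)` -/
def chi3 (p : ℕ) : ℤ := if p % 3 = 1 then 1 else if p % 3 = 2 then -1 else 0

lemma zs (a b : ℤ) : (⟨a, b⟩ : ℤ√(-3)) = (a : ℤ√(-3)) + (b : ℤ√(-3)) * ⟨0, 1⟩ := by
  ext <;> simp

lemma eisenstein (n : ℕ) (h3 : ¬ 3 ∣ 2 * n + 1) :
    (∑ k ∈ range (n + 1), ((2 * n + 1).choose (2 * k + 1) : ℤ) * (-3) ^ k = chi3 (2 * n + 1) * 2 ^ (2 * n)) ∧
    (∑ k ∈ range (n + 1), ((2 * n + 1).choose (2 * k + 1) : ℤ) * (-3) ^ (n - k) = 2 ^ (2 * n)) := by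
  set w : ℤ√(-3) := ⟨0, 1⟩ with hw
  have hw2 : w ^ 2 = ((-3 : ℤ) : ℤ√(-3)) := by
    rw [hw, pow_two]; ext <;> simp
  have h1 := odd_part n w
  have h2 := even_part n w
  have e1 : ∑ k ∈ range (n + 1), ((2 * n + 1).choose (2 * k + 1) : ℤ√(-3)) * w ^ (2 * k + 1)
      = ((∑ k ∈ range (n + 1), ((2 * n + 1).choose (2 * k + 1) : ℤ) * (-3) ^ k : ℤ) : ℤ√(-3)) * w := by
    push_cast
    rw [sum_mul]
    refine sum_congr rfl ?_
    intro k _
    rw [pow_succ, pow_mul, hw2]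
    push_cast
    ring
  have e2 : ∑ k ∈ range (n + 1), ((2 * n + 1).choose (2 * k + 1) : ℤ√(-3)) * w ^ (2 * (n - k))
      = ((∑ k ∈ range (n + 1), ((2 * n + 1).choose (2 * k + 1) : ℤ) * (-3) ^ (n - k) : ℤ) : ℤ√(-3)) := by
    push_cast
    refine sum_congr rfl ?_
    intro k _
    rw [pow_mul, hw2]
    push_cast
    ring
  rw [e1] at h1
  rw [e2] at h2
  set a := ∑ k ∈ range (n + 1), ((2 * n + 1).choose (2 * k + 1) : ℤ) * (-3) ^ k
  set b := ∑ k ∈ range (n + 1), ((2 * n + 1).choose (2 * k + 1) : ℤ) * (-3) ^ (n - k)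
  have c1 : (1 + w) ^ 3 = ((-8 : ℤ) : ℤ√(-3)) := by
    push_cast at hw2 ⊢
    linear_combination (3 + w) * hw2
  have c2 : (1 - w) ^ 3 = ((-8 : ℤ) : ℤ√(-3)) := by
    push_cast at hw2 ⊢
    linear_combination (3 - w) * hw2
  have im0 : ∀ x : ℤ, (x : ℤ√(-3)) * w = 0 → x = 0 := by
    intro x hx
    have := congrArg Zsqrtd.im hx
    simpa [hw] using this
  have re0 : ∀ x : ℤ, (x : ℤ√(-3)) = 0 → x = 0 := by
    intro x hx
    have := congrArg Zsqrtd.re hx
    simpa using this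
  have hcases : (∃ q, n = 3 * q) ∨ (∃ q, n = 3 * q + 2) := by
    rcases (by omega : n % 3 = 0 ∨ n % 3 = 2) with h | h
    · exact Or.inl ⟨n / 3, by omega⟩
    · exact Or.inr ⟨n / 3, by omega⟩
  rcases hcases with ⟨q, hq⟩ | ⟨q, hq⟩
  · have hc : chi3 (2 * n + 1) = 1 := by rw [chi3, if_pos (by omega)]
    have hpow : (2 : ℤ) ^ (2 * n) = (-8) ^ (2 * q) := by
      rw [hq, show 2 * (3 * q) = 6 * q by ring, pow_mul, pow_mul]; norm_num
    have d1 : (1 + w) ^ (2 * n + 1) = (((-8) ^ (2 * q) : ℤ) : ℤ√(-3)) * (1 + w) := by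
      rw [pow_succ, show 2 * n = 3 * (2 * q) by omega, pow_mul, c1]; push_cast; rfl
    have d2 : (1 - w) ^ (2 * n + 1) = (((-8) ^ (2 * q) : ℤ) : ℤ√(-3)) * (1 - w) := by
      rw [pow_succ, show 2 * n = 3 * (2 * q) by omega, pow_mul, c2]; push_cast; rfl
    rw [d1, d2] at h1 h2
    have f1 := im0 (2 * a - 2 * (-8) ^ (2 * q)) (by push_cast at h1 ⊢; linear_combination h1)
    have f2 := re0 (2 * b - 2 * (-8) ^ (2 * q)) (by push_cast at h2 ⊢; linear_combination h2)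
    rw [hc, hpow]
    constructor <;> linarith
  · have hc : chi3 (2 * n + 1) = -1 := by rw [chi3, if_neg (by omega), if_pos (by omega)]
    have hpow : (2 : ℤ) ^ (2 * n) = -2 * (-8) ^ (2 * q + 1) := by
      rw [hq, show 2 * (3 * q + 2) = 6 * q + 4 by ring, pow_add, pow_mul, pow_add, pow_mul]; norm_num
      ring
    have d1 : (1 + w) ^ (2 * n + 1) = (((-8) ^ (2 * q + 1) : ℤ) : ℤ√(-3)) * (1 + w) ^ 2 := by
      rw [show 2 * n + 1 = 3 * (2 * q + 1) + 2 by omega, pow_add, pow_mul, c1]; push_cast; rfl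
    have d2 : (1 - w) ^ (2 * n + 1) = (((-8) ^ (2 * q + 1) : ℤ) : ℤ√(-3)) * (1 - w) ^ 2 := by
      rw [show 2 * n + 1 = 3 * (2 * q + 1) + 2 by omega, pow_add, pow_mul, c2]; push_cast; rfl
    rw [d1, d2] at h1 h2
    have f1 := im0 (2 * a - 4 * (-8) ^ (2 * q + 1)) (by push_cast at h1 ⊢; linear_combination h1)
    have f2 := re0 (2 * b + 4 * (-8) ^ (2 * q + 1)) (by
      push_cast at h2 hw2 ⊢; linear_combination h2 + 2 * (-8) ^ (2 * q + 1) * hw2)
    rw [hc, hpow]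
    constructor <;> linarith

lemma chi3_sq {p : ℕ} (h3 : ¬ 3 ∣ p) : chi3 p ^ 2 = 1 := by
  rw [chi3]
  split_ifs with h1 h2
  · norm_num
  · norm_num
  · omega

/-- `(-3)^n = (p/3) + p y` -/
lemma neg_three_pow (H : Good p n A c) : (p : ℤ) ∣ (-3) ^ n - chi3 p := by
  have hn := H.hn
  have hp3 : ¬ 3 ∣ p := by
    intro h
    have := (Nat.prime_dvd_prime_iff_eq Nat.prime_three H.prime).mp h
    have := H.h3
    omega
  obtain ⟨h1, _⟩ := eisenstein n (by rw [← hn]; exact hp3)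
  rw [sum_range_succ, ← hn, Nat.choose_self] at h1
  have h2 : (p : ℤ) ∣ ∑ k ∈ range n, (p.choose (2 * k + 1) : ℤ) * (-3) ^ k := by
    refine dvd_sum ?_
    intro k hk
    rw [mem_range] at hk
    exact Dvd.dvd.mul_right (Int.natCast_dvd_natCast.mpr
      (H.prime.dvd_choose_self (k := 2 * k + 1) (by omega) (by omega))) _
  have h3 : (p : ℤ) ∣ 2 ^ (2 * n) - 1 := by
    rw [show 2 * n = p - 1 by omega]
    have h : ((2 : ℤ) ^ (p - 1) ≡ 1 [ZMOD p]) := by
      apply Int.ModEq.pow_card_sub_one_eq_one H.prime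
      have : Nat.Coprime 2 p := (Nat.coprime_of_lt_prime (show (2 : ℕ) ≠ 0 by norm_num)
        (show 2 < p by have := H.h3; omega) H.prime).symm
      exact_mod_cast Nat.isCoprime_iff_coprime.mpr this
    exact h.symm.dvd
  have h4 : (-3) ^ n - chi3 p = chi3 p * (2 ^ (2 * n) - 1) - ∑ k ∈ range n, (p.choose (2 * k + 1) : ℤ) * (-3) ^ k := by
    push_cast at h1
    linear_combination h1
  rw [h4]
  exact dvd_sub (Dvd.dvd.mul_left h3 _) h2

lemma FF_neg_three (H : Good p n A c) : FF p n (-3 : A) = chi3 p := by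
  have hn := H.hn
  have hp3 : ¬ 3 ∣ p := by
    intro h
    have := (Nat.prime_dvd_prime_iff_eq Nat.prime_three H.prime).mp h
    have := H.h3
    omega
  obtain ⟨h1, h2⟩ := eisenstein n (by rw [← hn]; exact hp3)
  rw [sum_range_succ, ← hn, Nat.choose_self] at h1 h2
  rw [Nat.sub_self, pow_zero] at h2
  have h1' := congrArg (fun x : ℤ => (x : A)) h1
  have h2' := congrArg (fun x : ℤ => (x : A)) h2
  push_cast at h1' h2'
  have h3 : FF p n (-3 : A) = (-3) ^ n + (∑ k ∈ range n, (p.choose (2 * k + 1) : A) * (-3) ^ k)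
      - (-3) ^ n * ∑ k ∈ range n, (p.choose (2 * k + 1) : A) * (-3) ^ (n - k) := by
    have h4 : ∀ k ∈ range n, (p.choose (2 * k + 1) : A) * ((-3) ^ k - (-3) ^ (2 * n - k))
        = (p.choose (2 * k + 1) : A) * (-3) ^ k - (-3) ^ n * ((p.choose (2 * k + 1) : A) * (-3) ^ (n - k)) := by
      intro k hk
      rw [mem_range] at hk
      have e1 : (-3 : A) ^ (2 * n - k) = (-3) ^ n * (-3) ^ (n - k) := by
        rw [← pow_add]
        congr 1
        omega
      rw [e1]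
      ring
    rw [FF, sum_congr rfl h4, sum_sub_distrib, mul_sum]
    ring
  obtain ⟨y, hy⟩ := H.fermat (k := 2) (by omega) (by have := H.h3; omega)
  obtain ⟨z, hz⟩ := Good.of_dvd (A := A) (neg_three_pow H)
  push_cast at hy hz
  rw [show 2 * n = p - 1 by omega] at h1' h2'
  rw [hy] at h1' h2'
  set a := ∑ k ∈ range n, (p.choose (2 * k + 1) : A) * (-3) ^ k
  set b := ∑ k ∈ range n, (p.choose (2 * k + 1) : A) * (-3) ^ (n - k)
  rw [h3]
  linear_combination h1' - (-3) ^ n * h2' - p * y * hz - y * z * H.sq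

end Pool.Agent.H13.TR
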