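import Pool.Agent.H13.TR.ValN

/-! The Catalan sum. -/

namespace Pool.Agent.H13.TR

open Finset Polynomial

variable {p n : ℕ} {A : Type*} [CommRing A] {c : ℕ → A}

lemma eval_PN (h : A) (n : ℕ) : (PN h n).eval (-1)
    = 1 + ∑ j ∈ range n, aa h (j + 1) * (tau h (2 * j + 2) - tau h (2 * j + 1)) := by
  rw [PN, eval_finsetSum]
  simp only [eval_mul, eval_C, eval_pow, eval_X]
  rw [sum_range_succ']
  have h1 : ∀ j ∈ range n, aa h (j + 1) * (tau h (2 * j + 2) - tau h (2 * j + 1))
      = ∑ k ∈ range (2 * n), aa h (j + 1) * (((2 * j + 1).choose k : A) * ((k + 1).centralBinom : A) * h ^ (k + 1)) := by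
    intro j hj
    rw [mem_range] at hj
    rw [tau_eq h (show 2 * j + 2 < 2 * n + 1 by omega), tau_eq h (show 2 * j + 1 < 2 * n + 1 by omega),
      sum_range_succ', sum_range_succ', ← mul_sum]
    congr 1
    have : ∀ k ∈ range (2 * n), ((2 * j + 1).choose k : A) * ((k + 1).centralBinom : A) * h ^ (k + 1)
        = ((2 * j + 2).choose (k + 1) : A) * ((k + 1).centralBinom : A) * h ^ (k + 1)
          - ((2 * j + 1).choose (k + 1) : A) * ((k + 1).centralBinom : A) * h ^ (k + 1) := by
      intro k _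
      have e : (2 * j + 2).choose (k + 1) = (2 * j + 1).choose k + (2 * j + 1).choose (k + 1) :=
        Nat.choose_succ_succ (2 * j + 1) k
      rw [e]
      push_cast
      ring
    rw [sum_congr rfl this, sum_sub_distrib]
    simp
  rw [sum_congr rfl h1, sum_comm, add_comm]
  congr 1
  · simp [Nc]
  · refine sum_congr rfl ?_
    intro k _
    rw [Nc, EE, mul_sum, sum_mul]
    refine sum_congr rfl ?_
    intro j _
    have e : (-h) ^ (k + 1) * (-1) ^ (k + 1) = h ^ (k + 1) := by rw [← mul_pow]; simp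
    linear_combination (((k + 1).centralBinom : A) * (aa h (j + 1) * ((2 * j + 1).choose k : A))) * e

lemma tau_rec (w : A) (m : ℕ) :
    (m + 2) * tau w (m + 2) = (2 * m + 3) * (1 + 2 * w) * tau w (m + 1) - (m + 1) * (1 + 4 * w) * tau w m := by
  set f : ℕ → A := fun k => (k.centralBinom : A) * w ^ k with hf
  have hf1 : ∀ k : ℕ, (k + 1) * f (k + 1) = 2 * (2 * k + 1) * w * f k := by
    intro k
    have e4 : (((k + 1) * (k + 1).centralBinom : ℕ) : A) = ((2 * (2 * k + 1) * k.centralBinom : ℕ) : A) := by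
      rw [Nat.succ_mul_centralBinom_succ]
    push_cast at e4
    simp only [hf]
    rw [pow_succ]
    linear_combination (w ^ k * w) * e4
  have t : ∀ (M N : ℕ), M < N → tau w M = ∑ k ∈ range N, (M.choose k : A) * f k := by
    intro M N hMN
    rw [tau_eq w hMN]
    refine sum_congr rfl ?_
    intro k _
    simp only [hf]
    ring
  -- first part
  have p1 : (m + 2) * tau w (m + 2) - (2 * m + 3) * tau w (m + 1) + (m + 1) * tau w m
      = ∑ k ∈ range (m + 3), (k + 1) * ((m + 1).choose k : A) * f (k + 1) := by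
    rw [t (m + 2) (m + 3 + 1) (by omega), t (m + 1) (m + 3 + 1) (by omega), t m (m + 3 + 1) (by omega)]
    rw [mul_sum, mul_sum, mul_sum, ← sum_sub_distrib, ← sum_add_distrib, sum_range_succ']
    have z : ((m : A) + 2) * (((m + 2).choose 0 : A) * f 0) - (2 * m + 3) * (((m + 1).choose 0 : A) * f 0)
        + (m + 1) * ((m.choose 0 : A) * f 0) = 0 := by
      simp only [Nat.choose_zero_right]
      push_cast
      ring
    rw [z, add_zero]
    refine sum_congr rfl ?_
    intro k _
    have e1 : (((m + 2).choose (k + 1) : ℕ) : A) = ((m + 1).choose k : A) + ((m + 1).choose (k + 1) : A) := by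
      rw [Nat.choose_succ_succ]; push_cast; rfl
    have e2 : (((m + 1).choose (k + 1) : ℕ) : A) = (m.choose k : A) + (m.choose (k + 1) : A) := by
      rw [Nat.choose_succ_succ]; push_cast; rfl
    have e3 : (((m + 1) * m.choose k : ℕ) : A) = (((m + 1).choose (k + 1) * (k + 1) : ℕ) : A) := by
      rw [Nat.add_one_mul_choose_eq]
    have e4 : ((m.choose k : A) * (m + 1)) = ((m + 1).choose k : A) * (m + 1 - k) := by
      rcases Nat.lt_or_ge (m + 1) k with hlt | hge
      · rw [Nat.choose_eq_zero_of_lt hlt, Nat.choose_eq_zero_of_lt (by omega)]; simp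
      · have h5 := Nat.choose_mul_succ_eq m k
        have h6 : (((m.choose k) * (m + 1) : ℕ) : A) = (((m + 1).choose k * (m + 1 - k) : ℕ) : A) := by rw [h5]
        rw [Nat.cast_mul, Nat.cast_mul, Nat.cast_sub hge] at h6
        push_cast at h6
        exact h6
    push_cast at e3
    rw [e1]
    rw [e2] at e3 ⊢
    linear_combination (-f (k + 1)) * e4
  have p2 : (2 * m + 3) * tau w (m + 1) - 2 * (m + 1) * tau w m
      = ∑ k ∈ range (m + 3), (2 * k + 1) * ((m + 1).choose k : A) * f k := by
    rw [t (m + 1) (m + 3) (by omega), t m (m + 3) (by omega)]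
    rw [mul_sum, mul_sum, ← sum_sub_distrib]
    refine sum_congr rfl ?_
    intro k _
    have e4 : ((m.choose k : A) * (m + 1)) = ((m + 1).choose k : A) * (m + 1 - k) := by
      rcases Nat.lt_or_ge (m + 1) k with hlt | hge
      · rw [Nat.choose_eq_zero_of_lt hlt, Nat.choose_eq_zero_of_lt (by omega)]; simp
      · have h5 := Nat.choose_mul_succ_eq m k
        have h6 : (((m.choose k) * (m + 1) : ℕ) : A) = (((m + 1).choose k * (m + 1 - k) : ℕ) : A) := by rw [h5]
        rw [Nat.cast_mul, Nat.cast_mul, Nat.cast_sub hge] at h6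
        push_cast at h6
        exact h6
    linear_combination (-2 * f k) * e4
  have p3 : ∑ k ∈ range (m + 3), (k + 1) * ((m + 1).choose k : A) * f (k + 1)
      = 2 * w * ∑ k ∈ range (m + 3), (2 * k + 1) * ((m + 1).choose k : A) * f k := by
    rw [mul_sum]
    refine sum_congr rfl ?_
    intro k _
    linear_combination ((m + 1).choose k : A) * hf1 k
  rw [p3, ← p2] at p1
  linear_combination p1

lemma tau_zero (w : A) : tau w 0 = 1 := by simp [tau]

lemma tau_one (w : A) : tau w 1 = 1 + 2 * w := by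
  have e : Nat.centralBinom 1 = 2 := by decide
  simp [tau, sum_range_succ, e]

lemma kk_succ {h : A} (hh : 2 * h = 1) (j : ℕ) : 2 * aa h (j + 1) = (2 * j + 1) * kk h j := by
  have h2 : ((j + 1) * catalan j : ℕ) = j.centralBinom := succ_mul_catalan_eq_centralBinom j
  have h3 : (((j + 1).centralBinom : ℕ) : A) = 2 * (2 * j + 1) * (catalan j : A) := by
    have h4 : (j + 1) * (j + 1).centralBinom = (j + 1) * (2 * (2 * j + 1) * catalan j) := by
      rw [Nat.succ_mul_centralBinom_succ, ← h2]; ring
    have h5 := Nat.eq_of_mul_eq_mul_left (Nat.succ_pos j) h4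
    rw [h5]; push_cast; ring
  unfold aa kk
  rw [h3, show 2 * (j + 1) = 2 * j + 2 by ring, pow_add]
  linear_combination ((2 * j + 1) * (catalan j : A) * h ^ (2 * j) * (2 * h + 1)) * hh

lemma cat_telescope {h : A} (hh : 2 * h = 1) (J : ℕ) :
    3 * ∑ j ∈ range (J + 1), kk h j * tau h (2 * j)
      - 4 * (1 + ∑ j ∈ range J, aa h (j + 1) * (tau h (2 * j + 2) - tau h (2 * j + 1)))
    = - (2 * (2 * J + 1) * aa h J * tau h (2 * J + 1)) + 3 * (2 * J + 1) ^ 2 * kk h J * tau h (2 * J) := by
  induction J with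
  | zero =>
    have e1 : aa h 0 = 1 := aa_zero h
    have e2 : kk h 0 = 1 := by simp [kk]
    simp only [mul_zero, zero_add, range_zero, sum_empty, sum_range_one, e1, e2, tau_zero, tau_one]
    push_cast
    linear_combination (2 : A) * hh
  | succ J ih =>
    have s1 : ∑ j ∈ range (J + 1 + 1), kk h j * tau h (2 * j)
      = ∑ j ∈ range (J + 1), kk h j * tau h (2 * j) + kk h (J + 1) * tau h (2 * (J + 1)) := sum_range_succ _ _
    have s2 : ∑ j ∈ range (J + 1), aa h (j + 1) * (tau h (2 * j + 2) - tau h (2 * j + 1))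
      = ∑ j ∈ range J, aa h (j + 1) * (tau h (2 * j + 2) - tau h (2 * j + 1))
        + aa h (J + 1) * (tau h (2 * J + 2) - tau h (2 * J + 1)) := sum_range_succ _ _
    rw [s1, s2]
    have r1 := tau_rec h (2 * J + 1)
    have r2 := tau_rec h (2 * J)
    have a1 := aa_succ hh J
    have a2 := kk_succ hh J
    have a3 := aa_eq_kk h (J + 1)
    rw [show 2 * (J + 1) + 1 = 2 * J + 1 + 2 by ring, show 2 * (J + 1) = 2 * J + 2 by ring]
    rw [show 2 * J + 1 + 1 = 2 * J + 2 by ring] at r1
    have w1 : 1 + 2 * h = 2 := by linear_combination hh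
    have w2 : 1 + 4 * h = 3 := by linear_combination 2 * hh
    rw [w1, w2] at r1 r2
    push_cast at r1 r2 a1 a2 a3 ⊢
    set T0 := tau h (2 * J)
    set T1 := tau h (2 * J + 1)
    set T2 := tau h (2 * J + 2)
    set T3 := tau h (2 * J + 1 + 2)
    set b := aa h (J + 1)
    set k1 := kk h (J + 1)
    linear_combination ih + 2 * b * r1 + 2 * b * r2 + 2 * T1 * a1 - 3 * (2 * J + 1) * T0 * a2
      + 12 * (J + 1) * T2 * a3

/-- `p τ_p(1/2) = 2p` -/
lemma p_tau (H : Good p n A c) : (p : A) * tau (c 2) p = 2 * p := by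
  have hn := H.hn
  have h3 := H.h3
  rw [tau, sum_range_succ, mul_add, mul_sum]
  rw [show p = (p - 1) + 1 by omega, sum_range_succ', ← show p = (p - 1) + 1 by omega]
  have z : ∑ k ∈ range (p - 1), (p : A) * ((p.choose (k + 1) : A) * ((k + 1).centralBinom : A) * c 2 ^ (k + 1)) = 0 := by
    refine sum_eq_zero ?_
    intro k hk
    rw [mem_range] at hk
    have := H.p_choose (k := k + 1) (by omega) (by omega)
    linear_combination (((k + 1).centralBinom : A) * c 2 ^ (k + 1)) * this
  rw [z, zero_add, Nat.choose_self, Nat.choose_zero_right]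
  have e1 : (p : A) * (p.centralBinom : A) = 2 * p := by
    have : Fact p.Prime := ⟨H.prime⟩
    have h6 := Choose.choose_modEq_choose_mod_mul_choose_div (n := 2 * p) (k := p) (p := p)
    rw [Nat.mul_mod_left, Nat.mod_self, Nat.mul_div_cancel _ H.prime.pos, Nat.div_self H.prime.pos] at h6
    simp only [Nat.choose_self, Nat.choose_one_right] at h6
    have h7 := H.mul_of_dvd h6.symm.dvd
    push_cast at h7
    rw [Nat.centralBinom]
    linear_combination h7
  have e2 : (p : A) * c 2 ^ p = p * c 2 := by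
    have : c 2 ^ p = c 2 ^ (p - 1) * c 2 := by rw [← pow_succ]; congr 1; omega
    rw [this]
    linear_combination c 2 * H.p_half
  have e3 := H.two
  simp only [Nat.centralBinom_zero]
  push_cast
  linear_combination c 2 ^ p * e1 + 2 * e2 + p * e3

/-- The Catalan sum: `3 ∑ C_j τ_{2j} /4^j = 4 ((p/3)(-1)^n - (-1)^n p)`. -/
theorem cat_sum (H : Good p n A c) :
    3 * ∑ j ∈ range (n + 1), kk (c 2) j * tau (c 2) (2 * j) = 4 * ((-1) ^ n * chi3 p - (-1) ^ n * p) := by
  have h1 := cat_telescope H.two n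
  rw [← eval_PN, N_neg_one H] at h1
  have e2 : ((2 * (n : A) + 1)) = p := by rw [H.hn]; push_cast; ring
  rw [e2, show 2 * n + 1 = p from H.hn.symm] at h1
  have h2 := p_tau H
  have h3 := p_aa H
  linear_combination h1 + 3 * kk (c 2) n * tau (c 2) (2 * n) * H.sq - 2 * tau (c 2) p * h3 - 2 * (-1) ^ n * h2

end Pool.Agent.H13.TR
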