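import Pool.Agent.H13.TR.Val43

/-! The companion sum `N`. -/

namespace Pool.Agent.H13.TR

open Finset Polynomial

variable {p n : ℕ} {A : Type*} [CommRing A] {c : ℕ → A}

/-- auxiliary sums -/
def EE (h : A) (n k : ℕ) : A := ∑ j ∈ range n, aa h (j + 1) * ((2 * j + 1).choose k : A)

lemma EE_zero (h : A) (n : ℕ) : EE h n 0 = GG h n 0 - 1 := by
  rw [EE, GG, sum_range_succ']
  simp [aa_zero]

lemma EE_succ (h : A) (n k : ℕ) : EE h n (k + 1) + EE h n k = GG h n (k + 1) := by
  rw [EE, EE, GG, sum_range_succ']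
  simp only [mul_zero, Nat.choose_zero_succ, Nat.cast_zero, add_zero]
  rw [← sum_add_distrib]
  refine sum_congr rfl ?_
  intro j _
  have e : (2 * (j + 1)).choose (k + 1) = (2 * j + 1).choose k + (2 * j + 1).choose (k + 1) :=
    Nat.choose_succ_succ (2 * j + 1) k
  rw [e]
  push_cast
  ring

/-- coefficients of `N` -/
def Nc (h : A) (n : ℕ) : ℕ → A
  | 0 => 1
  | (k + 1) => ((k + 1).centralBinom : A) * (-h) ^ (k + 1) * EE h n k

lemma Nc_rec {h : A} (hh : 2 * h = 1) (n k : ℕ) :
    (k + 1) * Nc h n (k + 1) - (2 * k + 1) * Nc h n k = - ((2 * k + 1) * sg h n k) := by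
  rcases k with _ | k
  · simp only [Nc, sg, EE_zero]
    have e : Nat.centralBinom 1 = 2 := by decide
    simp [e]
    linear_combination (1 - GG h n 0) * hh
  · have e4 : (((k + 1 + 1) * (k + 1 + 1).centralBinom : ℕ) : A)
        = ((2 * (2 * (k + 1) + 1) * (k + 1).centralBinom : ℕ) : A) := by
      rw [Nat.succ_mul_centralBinom_succ]
    push_cast at e4
    have e5 := EE_succ h n k
    simp only [Nc, sg]
    rw [← e5]
    push_cast
    rw [pow_succ (-h) (k + 1)]
    linear_combination ((-h) ^ (k + 1) * (-h) * EE h n (k + 1)) * e4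
      - ((2 * k + 3) * ((k + 1).centralBinom : A) * (-h) ^ (k + 1) * EE h n (k + 1)) * hh

lemma Nc_zero_of_ge (h : A) {n k : ℕ} (hk : 2 * n < k) : Nc h n k = 0 := by
  rcases k with _ | k
  · omega
  · rw [Nc, EE]
    rw [sum_eq_zero, mul_zero]
    intro j hj
    rw [mem_range] at hj
    rw [Nat.choose_eq_zero_of_lt (by omega)]
    simp

lemma sg_zero_of_ge (h : A) {n k : ℕ} (hk : 2 * n < k) : sg h n k = 0 := by
  rw [sg, GG, sum_eq_zero, mul_zero]
  intro j hj
  rw [mem_range] at hj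
  rw [Nat.choose_eq_zero_of_lt (by omega)]
  simp

/-- the polynomial `N(u)` -/
noncomputable def PN (h : A) (n : ℕ) : A[X] := ∑ k ∈ range (2 * n + 1), C (Nc h n k) * X ^ k

lemma coeff_PN (h : A) (n k : ℕ) : (PN h n).coeff k = Nc h n k := by
  rw [PN, finsetSum_coeff]
  simp only [coeff_C_mul, coeff_X_pow, mul_ite, mul_one, mul_zero]
  rw [sum_ite_eq (range (2 * n + 1)) k]
  split_ifs with hk
  · rfl
  · rw [mem_range, not_lt] at hk
    rw [Nc_zero_of_ge h (by omega)]

lemma natDegree_PN (h : A) (n : ℕ) : (PN h n).natDegree ≤ 2 * n := by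
  rw [natDegree_le_iff_coeff_eq_zero]
  intro k hk
  rw [coeff_PN, Nc_zero_of_ge h hk]

lemma coeff_one_sub_X_pow' (m k : ℕ) : ((1 - X : A[X]) ^ m).coeff k = (-1) ^ k * (m.choose k : A) := by
  induction m generalizing k with
  | zero =>
    rcases k with _ | k <;> simp [coeff_one]
  | succ m ih =>
    rw [pow_succ, mul_sub, mul_one, coeff_sub, ih]
    rcases k with _ | k
    · simp
    · rw [coeff_mul_X, ih, Nat.choose_succ_succ]
      push_cast
      ring

lemma ode_N (H : Good p n A c) :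
    (1 - 2 * X) * derivative (PN (c 2) n) - PN (c 2) n = - (C ((-1) ^ n * (p : A)) * (1 - X) ^ (p - 1)) := by
  have hn := H.hn
  ext k
  have e1 : ((1 - 2 * X) * derivative (PN (c 2) n) - PN (c 2) n).coeff k
      = (k + 1) * Nc (c 2) n (k + 1) - (2 * k + 1) * Nc (c 2) n k := by
    rw [sub_mul, one_mul, coeff_sub, coeff_sub, coeff_derivative, coeff_PN, coeff_PN]
    have e2 : (2 * X * derivative (PN (c 2) n)).coeff k = 2 * k * Nc (c 2) n k := by
      rcases k with _ | k
      · rw [mul_assoc, coeff_ofNat_mul, coeff_X_mul_zero]; simp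
      · rw [mul_assoc, coeff_ofNat_mul, coeff_X_mul, coeff_derivative, coeff_PN]
        push_cast
        ring
    rw [e2]
    ring
  rw [e1, Nc_rec H.two]
  rw [coeff_neg, coeff_C_mul, coeff_one_sub_X_pow']
  congr 1
  rcases Nat.lt_or_ge k p with hk | hk
  · rw [sg_all H hk]
    have := H.p_choose_pred hk
    have h1 : ((-1 : A) ^ k) * (-1) ^ k = 1 := by rw [← pow_add, ← two_mul, pow_mul]; simp
    linear_combination (-(-1) ^ n * (-1) ^ k) * this - (-1) ^ n * p * h1
  · rw [sg_zero_of_ge _ (by omega), Nat.choose_eq_zero_of_lt (by omega)]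
    simp

/-- the polynomial `M(g) = N((1-g)/2)` -/
noncomputable def PM (h : A) (n : ℕ) : A[X] := (PN h n).comp (C h * (1 - X))

lemma natDegree_PM (h : A) (n : ℕ) : (PM h n).natDegree ≤ 2 * n := by
  rw [PM]
  refine natDegree_comp_le.trans ?_
  have h1 : (C h * (1 - X) : A[X]).natDegree ≤ 1 := by
    refine (natDegree_C_mul_le _ _).trans ?_
    refine (natDegree_sub_le _ _).trans ?_
    simp [natDegree_X_le]
  calc (PN h n).natDegree * (C h * (1 - X) : A[X]).natDegree ≤ (2 * n) * 1 :=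
        Nat.mul_le_mul (natDegree_PN h n) h1
    _ = 2 * n := by ring

lemma ode_M (H : Good p n A c) :
    2 * X * derivative (PM (c 2) n) + PM (c 2) n = C ((-1) ^ n * (p : A)) * (1 + X) ^ (p - 1) := by
  have h1 := congrArg (fun P : A[X] => P.comp (C (c 2) * (1 - X))) (ode_N H)
  simp only [sub_comp, mul_comp, neg_comp, pow_comp, C_comp, one_comp, X_comp, ofNat_comp] at h1
  have hd : derivative (PM (c 2) n) = - C (c 2) * (derivative (PN (c 2) n)).comp (C (c 2) * (1 - X)) := by
    rw [PM, derivative_comp]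
    simp
  have hh : (2 : A[X]) * C (c 2) = 1 := by
    have := congrArg (C : A → A[X]) H.two
    rw [map_mul, map_ofNat, map_one] at this
    exact this
  have e1 : (1 : A[X]) - C (c 2) * (1 - X) = C (c 2) * (1 + X) := by
    linear_combination (-1 : A[X]) * hh
  rw [e1, mul_pow, ← C_pow] at h1
  have e2 : (C ((-1) ^ n * (p : A)) * C (c 2 ^ (p - 1)) : A[X]) = C ((-1) ^ n * (p : A)) := by
    rw [← C_mul, mul_assoc, H.p_half]
  rw [hd]
  have e3 : PM (c 2) n = (PN (c 2) n).comp (C (c 2) * (1 - X)) := rfl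
  rw [← e3] at h1
  have e4 : ((2 : ℕ) : A[X]) = 2 := by norm_num
  rw [e4] at h1
  set D := (derivative (PN (c 2) n)).comp (C (c 2) * (1 - X))
  linear_combination (-1 : A[X]) * h1 + (D * (-1 : A[X])) * hh + (1 + X) ^ (p - 1) * e2

lemma coeff_PM (H : Good p n A c) {k : ℕ} (hk : k < p) :
    (2 * k + 1) * (PM (c 2) n).coeff k = (-1) ^ n * (-1) ^ k * p := by
  have h1 := congrArg (fun P : A[X] => P.coeff k) (ode_M H)
  simp only [coeff_add, coeff_C_mul] at h1
  have e2 : (2 * X * derivative (PM (c 2) n)).coeff k = 2 * k * (PM (c 2) n).coeff k := by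
    rcases k with _ | k
    · rw [mul_assoc, coeff_ofNat_mul, coeff_X_mul_zero]; simp
    · rw [mul_assoc, coeff_ofNat_mul, coeff_X_mul, coeff_derivative]
      push_cast
      ring
  rw [e2, add_comm (1 : A[X]) X, coeff_X_add_one_pow] at h1
  have := H.p_choose_pred hk
  linear_combination h1 + (-1) ^ n * this

lemma eval_PM (h : A) (n : ℕ) (u : A) :
    (PM h n).eval u = ∑ k ∈ range (2 * n + 1), (PM h n).coeff k * u ^ k := by
  rw [eval_eq_sum_range' (show (PM h n).natDegree < 2 * n + 1 from Nat.lt_succ_of_le (natDegree_PM h n))]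

lemma PM_n (H : Good p n A c) : (PM (c 2) n).coeff n = 1 := by
  have h1 := eval_PM (c 2) n 1
  rw [sum_formula_one H (fun k => (PM (c 2) n).coeff k) ((-1) ^ n) (-1)
    (by intro k hk; exact coeff_PM H hk) 1 (by norm_num)] at h1
  rw [one_pow, mul_one] at h1
  rw [← h1, PM, eval_comp]
  simp only [eval_mul, eval_C, eval_sub, eval_one, eval_X, sub_self, mul_zero]
  rw [← coeff_zero_eq_eval_zero, coeff_PN, Nc]

/-- `N(-1) = (-1)^n (p/3)` -/
theorem N_neg_one (H : Good p n A c) : (PN (c 2) n).eval (-1) = (-1) ^ n * chi3 p := by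
  have h1 := eval_PM (c 2) n 3
  rw [sum_formula H (fun k => (PM (c 2) n).coeff k) ((-1) ^ n) (-1)
    (by intro k hk; exact coeff_PM H hk) 3, PM_n H] at h1
  have h2 : (PM (c 2) n).eval 3 = (PN (c 2) n).eval (-1) := by
    rw [PM, eval_comp]
    congr 1
    simp only [eval_mul, eval_C, eval_sub, eval_one, eval_X]
    linear_combination (-1 : A) * H.two
  rw [← h2, h1, ← FF_neg_three H, FF]
  rw [show (-1 : A) * 3 = -3 by norm_num, neg_pow (3 : A) n]
  have h3 : ((-1 : A) ^ n) * (-1) ^ n = 1 := by rw [← pow_add, ← two_mul, pow_mul]; simp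
  linear_combination (-3 ^ n) * h3

end Pool.Agent.H13.TR
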