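import Pool.Agent.H13.TR.EvalS

/-! Values of `S`. -/

namespace Pool.Agent.H13.TR

open Finset

variable {p n : ℕ} {A : Type*} [CommRing A] {c : ℕ → A}

/-- `tau` and trinomial coefficients. -/
lemma cast_T (m : ℕ) (d e : ℤ) (g : A) (hg : (d : A) * g = 1) :
    (T m (d + 2 * e) (e ^ 2) : A) * g ^ m = tau (e * g) m := by
  rw [T_expand, tau]
  push_cast
  rw [sum_mul]
  refine sum_congr rfl ?_
  intro k hk
  rw [mem_range] at hk
  have h1 : (d : A) ^ (m - k) * g ^ m = g ^ k := by
    have h2 : g ^ m = g ^ (m - k) * g ^ k := by rw [← pow_add]; congr 1; omega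
    rw [h2, ← mul_assoc, ← mul_pow, hg, one_pow, one_mul]
  rw [mul_pow]
  linear_combination ((m.choose k : A) * (k.centralBinom : A) * (e : A) ^ k) * h1

lemma tau_neg_half {h : A} (hh : 2 * h = 1) (j : ℕ) : tau (-h) (2 * j) = aa h j := by
  have h1 := cast_T (A := A) (2 * j) 2 (-1) h (by push_cast; exact hh)
  rw [show (2 : ℤ) + 2 * (-1) = 0 by norm_num, show (-1 : ℤ) ^ 2 = 1 by norm_num, T_zero_one] at h1
  push_cast at h1
  rw [neg_one_mul] at h1
  rw [← h1, aa]

lemma sg_n (H : Good p n A c) : sg (c 2) n n = (-1) ^ n := by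
  have h1 := sum_tau (c 2) 1 n
  have h2 := sum_formula_one H (sg (c 2) n) ((-1) ^ n) 1
    (by intro k hk; rw [sg_all H hk]; simp) 1 (by norm_num)
  rw [h2] at h1
  simp only [mul_one, one_pow] at h1
  rw [← h1, ← sum_sq H]
  refine sum_congr rfl ?_
  intro j _
  rw [tau_neg_half H.two]
  ring

/-- the function on the right-hand side -/
def FF (p n : ℕ) (u : A) : A :=
  u ^ n + ∑ k ∈ range n, (p.choose (2 * k + 1) : A) * (u ^ k - u ^ (2 * n - k))

theorem S_formula (H : Good p n A c) (u : A) :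
    ∑ j ∈ range (n + 1), aa (c 2) j * tau (-c 2 * u) (2 * j) = (-1) ^ n * FF p n u := by
  rw [sum_tau, sum_formula H (sg (c 2) n) ((-1) ^ n) 1
    (by intro k hk; rw [sg_all H hk]; simp) u, sg_n H, FF]
  simp only [one_mul]
  ring

lemma FF_neg_one : FF p n (-1 : A) = (-1) ^ n := by
  rw [FF]
  have : ∑ k ∈ range n, (p.choose (2 * k + 1) : A) * ((-1) ^ k - (-1) ^ (2 * n - k)) = 0 := by
    refine sum_eq_zero ?_
    intro k hk
    rw [mem_range] at hk
    have e1 : (-1 : A) ^ (2 * n - k) = (-1) ^ k := by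
      have e2 : (-1 : A) ^ (2 * n - k) * ((-1) ^ 2) ^ k = (-1) ^ k * ((-1) ^ 2) ^ n := by
        rw [← pow_mul, ← pow_mul, ← pow_add, ← pow_add]
        congr 1
        omega
      simpa using e2
    rw [e1, sub_self, mul_zero]
  rw [this, add_zero]

/-- odd part of the binomial expansion -/
lemma odd_part (n : ℕ) (w : A) :
    2 * ∑ k ∈ range (n + 1), ((2 * n + 1).choose (2 * k + 1) : A) * w ^ (2 * k + 1)
      = (1 + w) ^ (2 * n + 1) - (1 - w) ^ (2 * n + 1) := by
  have h1 : ∀ x : A, (1 + x) ^ (2 * n + 1) = ∑ k ∈ range (n + 1), (((2 * n + 1).choose (2 * k) : A) * x ^ (2 * k)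
      + ((2 * n + 1).choose (2 * k + 1) : A) * x ^ (2 * k + 1)) := by
    intro x
    rw [add_comm, add_pow]
    simp only [one_pow, mul_one]
    have h2 : ∀ (N : ℕ) (f : ℕ → A), ∑ i ∈ range (2 * N), f i = ∑ k ∈ range N, (f (2 * k) + f (2 * k + 1)) := by
      intro N f
      induction N with
      | zero => simp
      | succ N ih => rw [show 2 * (N + 1) = 2 * N + 1 + 1 by ring, sum_range_succ, sum_range_succ, sum_range_succ, ih]; ring
    rw [show 2 * n + 1 + 1 = 2 * (n + 1) by ring, h2]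
    refine sum_congr rfl ?_
    intro k _
    ring
  have h3 : (1 - w) ^ (2 * n + 1) = (1 + (-w)) ^ (2 * n + 1) := by rw [sub_eq_add_neg]
  rw [h3, h1, h1, ← sum_sub_distrib, mul_sum]
  refine sum_congr rfl ?_
  intro k _
  rw [pow_succ (-w), pow_mul (-w), neg_sq, ← pow_mul]
  ring

/-- even part of the binomial expansion, reflected -/
lemma even_part (n : ℕ) (w : A) :
    2 * ∑ k ∈ range (n + 1), ((2 * n + 1).choose (2 * k + 1) : A) * w ^ (2 * (n - k))
      = (1 + w) ^ (2 * n + 1) + (1 - w) ^ (2 * n + 1) := by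
  have h1 : ∀ x : A, (1 + x) ^ (2 * n + 1) = ∑ k ∈ range (n + 1), (((2 * n + 1).choose (2 * k) : A) * x ^ (2 * k)
      + ((2 * n + 1).choose (2 * k + 1) : A) * x ^ (2 * k + 1)) := by
    intro x
    rw [add_comm, add_pow]
    simp only [one_pow, mul_one]
    have h2 : ∀ (N : ℕ) (f : ℕ → A), ∑ i ∈ range (2 * N), f i = ∑ k ∈ range N, (f (2 * k) + f (2 * k + 1)) := by
      intro N f
      induction N with
      | zero => simp
      | succ N ih => rw [show 2 * (N + 1) = 2 * N + 1 + 1 by ring, sum_range_succ, sum_range_succ, sum_range_succ, ih]; ring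
    rw [show 2 * n + 1 + 1 = 2 * (n + 1) by ring, h2]
    refine sum_congr rfl ?_
    intro k _
    ring
  have h3 : (1 - w) ^ (2 * n + 1) = (1 + (-w)) ^ (2 * n + 1) := by rw [sub_eq_add_neg]
  have h4 : ∑ k ∈ range (n + 1), ((2 * n + 1).choose (2 * k + 1) : A) * w ^ (2 * (n - k))
      = ∑ k ∈ range (n + 1), ((2 * n + 1).choose (2 * k) : A) * w ^ (2 * k) := by
    rw [← sum_range_reflect]
    refine sum_congr rfl ?_
    intro k hk
    rw [mem_range] at hk
    rw [show n - (n + 1 - 1 - k) = k by omega]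
    congr 2
    rw [← Nat.choose_symm (show 2 * k ≤ 2 * n + 1 by omega)]
    congr 1
    omega
  rw [h3, h1, h1, ← sum_add_distrib, h4, mul_sum]
  refine sum_congr rfl ?_
  intro k _
  rw [pow_succ (-w), pow_mul (-w), neg_sq, ← pow_mul]
  ring

end Pool.Agent.H13.TR
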